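import Pool.Agent.H13.Sat.Five

set_option autoImplicit false
set_option linter.all false

namespace Pool.Agent.H13.Sat

open Finset

def GoodW (k : ℕ) {V : Type} [DecidableEq V] (W : Type) [DecidableEq W] (H : Finset V → Prop) :
    Prop :=
  ∃ G : Set (Finset W), (∀ S ∈ G, S.card = k) ∧
    (∀ φ : V → W, Function.Injective φ →
      ¬ ∀ S : Finset V, S.card = k → (H S ↔ S.image φ ∈ G)) ∧
    ∀ P : Set (Finset W), (∀ e ∈ P, e.card = k) → P.Nonempty →
      (∀ w, {e ∈ P | w ∈ e}.Finite) → ∃ φ : V → W, Function.Injective φ ∧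
        ∀ S : Finset V, S.card = k → (H S ↔ S.image φ ∈ symmDiff G P)

section

variable {k : ℕ} {V V' W W' : Type} [DecidableEq V] [DecidableEq V'] [DecidableEq W]
  [DecidableEq W']

theorem goodW_congr (e : W ≃ W') {H : Finset V → Prop} (h : GoodW k W H) : GoodW k W' H := by
  obtain ⟨G, h1, h2, h3⟩ := h
  have himg : ∀ S : Finset W, (S.image e).image e.symm = S := by
    intro S; rw [Finset.image_image]; simp
  have himg' : ∀ S : Finset W', (S.image e.symm).image e = S := by
    intro S; rw [Finset.image_image]; simp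
  refine ⟨{S | S.image e.symm ∈ G}, ?_, ?_, ?_⟩
  · intro S hS
    have := h1 _ hS
    rwa [Finset.card_image_of_injective _ e.symm.injective] at this
  · intro φ hφ hc
    apply h2 (fun v => e.symm (φ v)) (e.symm.injective.comp hφ)
    intro S hS
    rw [hc S hS, Set.mem_setOf_eq, Finset.image_image]
    rfl
  · intro P hP1 hP2 hP3
    have q1 : ∀ S ∈ {S : Finset W | S.image e ∈ P}, S.card = k := by
      intro S hS
      have := hP1 _ hS
      rwa [Finset.card_image_of_injective _ e.injective] at this
    have q2 : {S : Finset W | S.image e ∈ P}.Nonempty := by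
      obtain ⟨S, hS⟩ := hP2
      exact ⟨S.image e.symm, by rw [Set.mem_setOf_eq, himg']; exact hS⟩
    have q3 : ∀ w, {S ∈ {S : Finset W | S.image e ∈ P} | w ∈ S}.Finite := by
      intro w
      apply Set.Finite.subset ((hP3 (e w)).image (fun S => S.image e.symm))
      rintro S ⟨hS, hw⟩
      exact ⟨S.image e, ⟨hS, mem_image_of_mem _ hw⟩, himg S⟩
    obtain ⟨φ, hφ, hc⟩ := h3 {S | S.image e ∈ P} q1 q2 q3
    refine ⟨fun v => e (φ v), e.injective.comp hφ, ?_⟩
    intro S hS
    rw [hc S hS]
    have e1 : S.image (fun v => e (φ v)) = (S.image φ).image e := by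
      rw [Finset.image_image]; rfl
    simp only [Set.mem_symmDiff, Set.mem_setOf_eq, e1, himg]

theorem goodW_compl {H : Finset V → Prop} (h : GoodW k W (fun S => ¬ H S)) : GoodW k W H := by
  obtain ⟨G, h1, h2, h3⟩ := h
  refine ⟨{S | S.card = k ∧ S ∉ G}, fun S hS => hS.1, ?_, ?_⟩
  · intro φ hφ hc
    apply h2 φ hφ
    intro S hS
    have hcard : (S.image φ).card = k := by rw [Finset.card_image_of_injective _ hφ, hS]
    show ¬ H S ↔ _
    rw [hc S hS]
    simp [hcard]
  · intro P hP1 hP2 hP3
    obtain ⟨φ, hφ, hc⟩ := h3 P hP1 hP2 hP3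
    refine ⟨φ, hφ, ?_⟩
    intro S hS
    have hcard : (S.image φ).card = k := by rw [Finset.card_image_of_injective _ hφ, hS]
    have := hc S hS
    rw [Set.mem_symmDiff] at this ⊢
    simp only [Set.mem_setOf_eq, hcard, true_and]
    tauto

theorem goodW_transport (e : V' ≃ V) {H' : Finset V' → Prop} {H : Finset V → Prop}
    (hH : ∀ S : Finset V', S.card = k → (H' S ↔ H (S.image e))) (h : GoodW k W H') :
    GoodW k W H := by
  obtain ⟨G, h1, h2, h3⟩ := h
  refine ⟨G, h1, ?_, ?_⟩
  · intro φ hφ hc
    apply h2 (fun v => φ (e v)) (hφ.comp e.injective)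
    intro S hS
    rw [hH S hS, hc _ (by rw [Finset.card_image_of_injective _ e.injective, hS]),
      Finset.image_image]
    rfl
  · intro P hP1 hP2 hP3
    obtain ⟨φ, hφ, hc⟩ := h3 P hP1 hP2 hP3
    refine ⟨fun v => φ (e.symm v), hφ.comp e.symm.injective, ?_⟩
    intro S hS
    have hc' := hc (S.image e.symm)
      (by rw [Finset.card_image_of_injective _ e.symm.injective, hS])
    rw [hH _ (by rw [Finset.card_image_of_injective _ e.symm.injective, hS])] at hc'
    have e1 : (S.image e.symm).image e = S := by rw [Finset.image_image]; simp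
    rw [e1] at hc'
    rw [hc', Finset.image_image]
    rfl

end

section

variable {k : ℕ} {V : Type} [Fintype V] [DecidableEq V] {H : Finset V → Prop}

theorem good_of_gad (hk : 2 ≤ k) (hE : ∃ S : Finset V, S.card = k ∧ H S)
    (h1 : Nonempty (Gad k H false)) (h2 : Nonempty (Gad k H true)) : GoodW k ℕ H := by
  obtain ⟨g1⟩ := h1
  obtain ⟨g2⟩ := h2
  have h := exists_saturated (H := H) (fun α => match α with | false => g1 | true => g2) hk hE
  exact goodW_congr (Denumerable.eqv (ℕ × ℕ)) h

theorem exists_out (hE : ∃ S : Finset V, S.card = k ∧ H S) (hN : ∃ S : Finset V, S.card = k ∧ ¬ H S)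
    (F : Finset V) (hF : F.card = k) : ∃ v, v ∉ F := by
  by_contra hcon
  push Not at hcon
  obtain ⟨S, hS, hS2⟩ := hE
  obtain ⟨S', hS', hS2'⟩ := hN
  have h1 : ∀ S : Finset V, S.card = k → S = F := by
    intro S hS
    apply Finset.eq_of_subset_of_card_le (fun v _ => hcon v)
    omega
  rw [h1 S hS] at hS2
  rw [h1 S' hS'] at hS2'
  exact hS2' hS2

theorem good_irred (hk : 2 ≤ k) (hE : ∃ S : Finset V, S.card = k ∧ H S)
    (hN : ∃ S : Finset V, S.card = k ∧ ¬ H S)
    (hirr : ∀ u v : V, u ≠ v → ∃ S : Finset V, S.card = k ∧ u ∈ S ∧ v ∈ S ∧ H S) :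
    GoodW k ℕ H := by
  obtain ⟨S, hS, hS2⟩ := id hE
  obtain ⟨S', hS', hS2'⟩ := id hN
  exact good_of_gad hk hE
    (gad_irred hirr false S hS (by simp [hS2]) (exists_out hE hN S hS))
    (gad_irred hirr true S' hS' (by simp [hS2']) (exists_out hE hN S' hS'))

theorem good_irred' (hk : 2 ≤ k) (hE : ∃ S : Finset V, S.card = k ∧ H S)
    (hN : ∃ S : Finset V, S.card = k ∧ ¬ H S)
    (hirr : ∀ u v : V, u ≠ v → ∃ S : Finset V, S.card = k ∧ u ∈ S ∧ v ∈ S ∧ ¬ H S) :
    GoodW k ℕ H := by
  apply goodW_compl
  exact good_irred hk hN (by simpa using hE) hirr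

/-- uniformity at least four -/
theorem good_four (hk : 4 ≤ k) (hE : ∃ S : Finset V, S.card = k ∧ H S)
    (hN : ∃ S : Finset V, S.card = k ∧ ¬ H S) : GoodW k ℕ H := by
  by_cases h1 : ∀ u v : V, u ≠ v → ∃ S : Finset V, S.card = k ∧ u ∈ S ∧ v ∈ S ∧ H S
  · exact good_irred (by omega) hE hN h1
  · apply good_irred' (by omega) hE hN
    intro c d hcd
    push Not at h1
    obtain ⟨a, b, hab, h1⟩ := h1
    obtain ⟨S0, hS0, _⟩ := hE
    have h2 : ({a, b, c, d} : Finset V).card ≤ k := Finset.card_le_four.trans hk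
    have h3 : k ≤ (univ : Finset V).card := by
      rw [← hS0]; exact Finset.card_le_card (Finset.subset_univ _)
    obtain ⟨S, hS1, _, hS3⟩ := Finset.exists_subsuperset_card_eq
      (Finset.subset_univ ({a, b, c, d} : Finset V)) h2 h3
    refine ⟨S, hS3, hS1 (by simp), hS1 (by simp), h1 S hS3 (hS1 (by simp)) (hS1 (by simp))⟩

end

/-! ### four vertices -/

section FourV

noncomputable def val (w : ℚ × Bool) : ℝ := (w.1 : ℝ) + (if w.2 then Real.sqrt 2 else 0)

theorem val_inj : Function.Injective val := by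
  rintro ⟨q, a⟩ ⟨r, b⟩ h
  simp only [val] at h
  have hirr := irrational_sqrt_two
  cases a <;> cases b <;> simp only [if_true, if_false, Bool.false_eq_true, add_zero] at h
  · have : q = r := by exact_mod_cast h
    rw [this]
  · exfalso
    apply hirr
    refine ⟨q - r, ?_⟩
    push_cast
    linarith
  · exfalso
    apply hirr
    refine ⟨r - q, ?_⟩
    push_cast
    linarith
  · have : (q : ℝ) = r := by linarith
    have : q = r := by exact_mod_cast this
    rw [this]

theorem exists_between (α : Bool) (x y : ℝ) (h : x < y) : ∃ q : ℚ, x < val (q, α) ∧ val (q, α) < y := by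
  cases α
  · obtain ⟨q, h1, h2⟩ := exists_rat_btwn h
    exact ⟨q, by simpa [val] using h1, by simpa [val] using h2⟩
  · obtain ⟨q, h1, h2⟩ := exists_rat_btwn (show x - Real.sqrt 2 < y - Real.sqrt 2 by linarith)
    refine ⟨q, ?_, ?_⟩ <;> simp only [val, if_true] <;> linarith

def H4 (S : Finset (Fin 4)) : Prop := S = {0, 2, 3} ∨ S = {1, 2, 3}

instance (S : Finset (Fin 4)) : Decidable (H4 S) := by unfold H4; infer_instance

theorem four_cases : ∀ S : Finset (Fin 4), S.card = 3 →
    S = {0, 1, 2} ∨ S = {0, 1, 3} ∨ S = {0, 2, 3} ∨ S = {1, 2, 3} := by decide +kernel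

/-- the model : a triple is an edge iff its largest element has label `true`. -/
def G4 : Set (Finset (ℚ × Bool)) :=
  {S | S.card = 3 ∧ ∃ w ∈ S, (∀ u ∈ S, val u ≤ val w) ∧ w.2 = true}

theorem mem_G4 {x y z : ℚ × Bool} (h1 : x ≠ y) (h2 : x ≠ z) (h3 : y ≠ z) (hx : val x < val z)
    (hy : val y < val z) : ({x, y, z} : Finset (ℚ × Bool)) ∈ G4 ↔ z.2 = true := by
  constructor
  · rintro ⟨_, w, hw, hmax, ht⟩
    simp only [mem_insert, mem_singleton] at hw
    have hz := hmax z (by simp)
    rcases hw with rfl | rfl | rfl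
    · linarith
    · linarith
    · exact ht
  · intro h
    refine ⟨Finset.card_eq_three.2 ⟨x, y, z, h1, h2, h3, rfl⟩, z, by simp, ?_, h⟩
    intro u hu
    simp only [mem_insert, mem_singleton] at hu
    rcases hu with rfl | rfl | rfl
    · exact hx.le
    · exact hy.le
    · exact le_rfl

theorem exists_sorted (e : Finset (ℚ × Bool)) (he : e.card = 3) :
    ∃ x y z, e = {x, y, z} ∧ val x < val y ∧ val y < val z := by
  obtain ⟨x, y, z, hxy, hxz, hyz, rfl⟩ := Finset.card_eq_three.1 he
  have a1 : val x ≠ val y := fun h => hxy (val_inj h)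
  have a2 : val x ≠ val z := fun h => hxz (val_inj h)
  have a3 : val y ≠ val z := fun h => hyz (val_inj h)
  rcases lt_or_gt_of_ne a1 with h1 | h1 <;> rcases lt_or_gt_of_ne a2 with h2 | h2 <;>
    rcases lt_or_gt_of_ne a3 with h3 | h3
  · exact ⟨x, y, z, rfl, h1, h3⟩
  · exact ⟨x, z, y, perm2 _ _ _, h2, h3⟩
  · linarith
  · exact ⟨z, x, y, by rw [perm2, perm1], h2, h1⟩
  · exact ⟨y, x, z, perm1 _ _ _, h1, h2⟩
  · linarith
  · exact ⟨y, z, x, by rw [perm1, perm2], h3, h2⟩
  · exact ⟨z, y, x, perm3 _ _ _, h3, h1⟩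

theorem good_H4 : GoodW 3 (ℚ × Bool) H4 := by
  classical
  refine ⟨G4, fun S hS => hS.1, ?_, ?_⟩
  · intro φ hφ hc
    obtain ⟨m, _, hm⟩ := Finset.exists_max_image (univ : Finset (Fin 4)) (fun v => val (φ v))
      ⟨0, mem_univ _⟩
    have key : ∀ i j : Fin 4, i ≠ j → i ≠ m → j ≠ m →
        (H4 {i, j, m} ↔ (φ m).2 = true) := by
      intro i j hij him hjm
      rw [hc {i, j, m} (Finset.card_eq_three.2 ⟨i, j, m, hij, him, hjm, rfl⟩)]
      have e1 : ({i, j, m} : Finset (Fin 4)).image φ = {φ i, φ j, φ m} := by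
        simp [Finset.image_insert]
      have hi : val (φ i) < val (φ m) :=
        lt_of_le_of_ne (hm i (mem_univ _)) (fun h => him (hφ (val_inj h)))
      have hj : val (φ j) < val (φ m) :=
        lt_of_le_of_ne (hm j (mem_univ _)) (fun h => hjm (hφ (val_inj h)))
      rw [e1, mem_G4 (hφ.ne hij) (hφ.ne him) (hφ.ne hjm) hi hj]
    have hfin : ∀ m : Fin 4, ∃ i j i' j' : Fin 4, (i ≠ j ∧ i ≠ m ∧ j ≠ m) ∧
        (i' ≠ j' ∧ i' ≠ m ∧ j' ≠ m) ∧ H4 {i, j, m} ∧ ¬ H4 {i', j', m} := by decide +kernel
    obtain ⟨i, j, i', j', ⟨a1, a2, a3⟩, ⟨c1, c2, c3⟩, b1, b2⟩ := hfin m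
    exact b2 ((key i' j' c1 c2 c3).2 ((key i j a1 a2 a3).1 b1))
  · intro P hP1 hP2 hP3
    obtain ⟨e, he⟩ := hP2
    obtain ⟨x, y, z, rfl, hxy, hyz⟩ := exists_sorted e (hP1 e he)
    have hxz : val x < val z := hxy.trans hyz
    have nxy : x ≠ y := by rintro rfl; exact lt_irrefl _ hxy
    have nyz : y ≠ z := by rintro rfl; exact lt_irrefl _ hyz
    have nxz : x ≠ z := by rintro rfl; exact lt_irrefl _ hxz
    -- the forbidden vertices
    let bad : Set (ℚ × Bool) := ⋃ u ∈ ({x, y, z} : Finset (ℚ × Bool)),
      ⋃ e ∈ {e ∈ P | u ∈ e}, (e : Set (ℚ × Bool))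
    have hbad : bad.Finite := by
      apply Set.Finite.biUnion (Finset.finite_toSet _)
      intro u _
      exact (hP3 u).biUnion (fun e _ => e.finite_toSet)
    obtain ⟨M, hM1, hM2, hM3⟩ : ∃ M : ℝ, val y ≤ M ∧ M < val z ∧
        ∀ u ∈ bad, val u < val z → val u ≤ M := by
      have hfin : ((val '' bad) ∩ Set.Iio (val z) ∪ {val y}).Finite :=
        ((hbad.image _).inter_of_left _).union (Set.finite_singleton _)
      obtain ⟨M, hM, hmax⟩ := Set.exists_max_image _ id hfin ⟨val y, Or.inr rfl⟩
      refine ⟨M, hmax _ (Or.inr rfl), ?_, ?_⟩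
      · rcases hM with hM | hM
        · exact hM.2
        · rw [Set.mem_singleton_iff.1 hM]; exact hyz
      · intro u hu hlt
        exact hmax _ (Or.inl ⟨⟨u, hu, rfl⟩, hlt⟩)
    obtain ⟨q, hq1, hq2⟩ := exists_between (!z.2) M (val z) hM2
    set w : ℚ × Bool := (q, !z.2) with hw
    have hwb : w ∉ bad := fun h => absurd (hM3 w h hq2) (by linarith)
    have hwP : ∀ u ∈ ({x, y, z} : Finset (ℚ × Bool)), ∀ e ∈ P, u ∈ e → w ∉ e := by
      intro u hu e he hue hwe
      apply hwb
      simp only [bad, Set.mem_iUnion, Set.mem_setOf_eq]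
      exact ⟨u, hu, e, ⟨he, hue⟩, hwe⟩
    have hyw : val y < val w := lt_of_le_of_lt hM1 hq1
    have hxw : val x < val w := hxy.trans hyw
    have nxw : x ≠ w := by intro h; rw [← h] at hxw; exact lt_irrefl _ hxw
    have nyw : y ≠ w := by intro h; rw [← h] at hyw; exact lt_irrefl _ hyw
    have nwz : w ≠ z := by intro h; rw [h] at hq2; exact lt_irrefl _ hq2
    -- statuses
    have s1 : ({x, y, z} : Finset (ℚ × Bool)) ∈ symmDiff G4 P ↔ z.2 = false := by
      rw [Set.mem_symmDiff, mem_G4 nxy nxz nyz hxz hyz]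
      constructor
      · rintro (⟨_, h⟩ | ⟨_, h⟩)
        · exact absurd he h
        · simpa using h
      · intro h
        right
        exact ⟨he, by simp [h]⟩
    have nP : ∀ u v : ℚ × Bool, u ∈ ({x, y, z} : Finset (ℚ × Bool)) →
        ({u, v, w} : Finset (ℚ × Bool)) ∉ P := by
      intro u v hu h
      exact hwP u hu _ h (by simp) (by simp)
    have s2 : ({x, y, w} : Finset (ℚ × Bool)) ∈ symmDiff G4 P ↔ z.2 = false := by
      rw [Set.mem_symmDiff, mem_G4 nxy nxw nyw hxw hyw]
      have := nP x y (by simp)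
      simp only [hw, Bool.not_eq_true']
      simp only [hw] at this
      tauto
    have s3 : ({x, w, z} : Finset (ℚ × Bool)) ∈ symmDiff G4 P ↔ z.2 = true := by
      rw [Set.mem_symmDiff, mem_G4 nxw nxz nwz hxz hq2]
      have := nP x z (by simp)
      rw [perm2] at this
      tauto
    have s4 : ({y, w, z} : Finset (ℚ × Bool)) ∈ symmDiff G4 P ↔ z.2 = true := by
      rw [Set.mem_symmDiff, mem_G4 nyw nyz nwz hyz hq2]
      have := nP y z (by simp)
      rw [perm2] at this
      tauto
    cases hz : z.2 with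
    | true =>
      -- a = x, b = y, c = z, d = w
      refine ⟨![x, y, z, w], ?_, ?_⟩
      · intro i j hij
        fin_cases i <;> fin_cases j <;>
          first
          | rfl
          | exact absurd hij nxy
          | exact absurd hij.symm nxy
          | exact absurd hij nxz
          | exact absurd hij.symm nxz
          | exact absurd hij nyz
          | exact absurd hij.symm nyz
          | exact absurd hij nxw
          | exact absurd hij.symm nxw
          | exact absurd hij nyw
          | exact absurd hij.symm nyw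
          | exact absurd hij nwz
          | exact absurd hij.symm nwz
      · intro S hS
        rw [hz] at s1 s2 s3 s4
        rcases four_cases S hS with rfl | rfl | rfl | rfl
        · have e1 : ({0, 1, 2} : Finset (Fin 4)).image ![x, y, z, w] = {x, y, z} := by
            simp [Finset.image_insert]
          rw [e1, s1]
          exact iff_of_false (by decide +kernel) (by simp)
        · have e1 : ({0, 1, 3} : Finset (Fin 4)).image ![x, y, z, w] = {x, y, w} := by
            simp [Finset.image_insert]
          rw [e1, s2]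
          exact iff_of_false (by decide +kernel) (by simp)
        · have e1 : ({0, 2, 3} : Finset (Fin 4)).image ![x, y, z, w] = {x, z, w} := by
            simp [Finset.image_insert]
          rw [e1, perm2 x z w, s3]
          exact iff_of_true (by decide +kernel) (by simp)
        · have e1 : ({1, 2, 3} : Finset (Fin 4)).image ![x, y, z, w] = {y, z, w} := by
            simp [Finset.image_insert]
          rw [e1, perm2 y z w, s4]
          exact iff_of_true (by decide +kernel) (by simp)
    | false =>
      -- c = x, d = y, a = z, b = w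
      refine ⟨![z, w, x, y], ?_, ?_⟩
      · intro i j hij
        fin_cases i <;> fin_cases j <;>
          first
          | rfl
          | exact absurd hij nxy
          | exact absurd hij.symm nxy
          | exact absurd hij nxz
          | exact absurd hij.symm nxz
          | exact absurd hij nyz
          | exact absurd hij.symm nyz
          | exact absurd hij nxw
          | exact absurd hij.symm nxw
          | exact absurd hij nyw
          | exact absurd hij.symm nyw
          | exact absurd hij nwz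
          | exact absurd hij.symm nwz
      · intro S hS
        rw [hz] at s1 s2 s3 s4
        rcases four_cases S hS with rfl | rfl | rfl | rfl
        · have e1 : ({0, 1, 2} : Finset (Fin 4)).image ![z, w, x, y] = {z, w, x} := by
            simp [Finset.image_insert]
          rw [e1, perm3 z w x, s3]
          exact iff_of_false (by decide +kernel) (by simp)
        · have e1 : ({0, 1, 3} : Finset (Fin 4)).image ![z, w, x, y] = {z, w, y} := by
            simp [Finset.image_insert]
          rw [e1, perm3 z w y, s4]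
          exact iff_of_false (by decide +kernel) (by simp)
        · have e1 : ({0, 2, 3} : Finset (Fin 4)).image ![z, w, x, y] = {z, x, y} := by
            simp [Finset.image_insert]
          rw [e1, perm1 z x y, perm2 x z y, s1]
          exact iff_of_true (by decide +kernel) (by simp)
        · have e1 : ({1, 2, 3} : Finset (Fin 4)).image ![z, w, x, y] = {w, x, y} := by
            simp [Finset.image_insert]
          rw [e1, perm1 w x y, perm2 x w y, s2]
          exact iff_of_true (by decide +kernel) (by simp)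

end FourV

end Pool.Agent.H13.Sat
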