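import Pool.Agent.H13.Sat.Three

set_option autoImplicit false
set_option linter.all false

namespace Pool.Agent.H13.Sat

open Finset

theorem lemE {V : Type} [Finite V] (T T' : V → V → V → Prop) (ψ : V → V)
    (h1 : ∀ x y z, T x y z ↔ T' (ψ x) (ψ y) (ψ z)) (h2 : ∀ a b, T a = T b → T' a = T' b) :
    ∃ m, 1 ≤ m ∧ ∀ x, T (ψ^[m] x) = T x := by
  have h3 : ∀ a b, T' (ψ a) = T' (ψ b) → T a = T b := by
    intro a b h
    funext u w
    apply propext
    rw [h1 a u w, h1 b u w, h]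
  have h4 : ∀ (n : ℕ) (a b : V), ψ^[n] a = ψ^[n] b → T a = T b := by
    intro n
    induction n with
    | zero => intro a b h; have : a = b := h; rw [this]
    | succ n ih =>
      intro a b h
      rw [Function.iterate_succ_apply, Function.iterate_succ_apply] at h
      exact h3 a b (h2 _ _ (ih _ _ h))
  obtain ⟨n, m, hnm, h5'⟩ := Finite.exists_ne_map_eq_of_infinite (fun n : ℕ => ψ^[n])
  have h5 : ψ^[n] = ψ^[m] := h5'
  rcases lt_or_gt_of_ne hnm with h | h
  · refine ⟨m - n, by omega, fun x => ?_⟩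
    apply h4 n
    rw [← Function.iterate_add_apply, show n + (m - n) = m by omega, h5]
  · refine ⟨n - m, by omega, fun x => ?_⟩
    apply h4 m
    rw [← Function.iterate_add_apply, show m + (n - m) = n by omega, ← h5]

section

variable {V : Type} [Fintype V] [DecidableEq V]

def T (H : Finset V → Prop) (x y z : V) : Prop := x ≠ y ∧ x ≠ z ∧ y ≠ z ∧ H {x, y, z}

/-- `H` minus the edge `F`. -/
def T' (H : Finset V → Prop) (F : Finset V) (x y z : V) : Prop :=
  T H x y z ∧ ({x, y, z} : Finset V) ≠ F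

def b1 (H : Finset V → Prop) (F : Finset V) (x y z : V) : Prop := T' H F x y z

def b2 (H : Finset V → Prop) (F : Finset V) (c d : V) (x y z : V) : Prop :=
  T' H F x y z ∨ (x = y ∧ (z = c ∨ z = d)) ∨ (y = z ∧ (x = c ∨ x = d)) ∨
    (x = z ∧ (y = c ∨ y = d))

variable {H : Finset V → Prop} {F : Finset V}

theorem T_s1 {x y z : V} (h : T H x y z) : T H y x z :=
  ⟨h.1.symm, h.2.2.1, h.2.1, by rw [perm1]; exact h.2.2.2⟩

theorem T_s2 {x y z : V} (h : T H x y z) : T H x z y :=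
  ⟨h.2.1, h.1, h.2.2.1.symm, by rw [perm2]; exact h.2.2.2⟩

theorem T'_s1 {x y z : V} (h : T' H F x y z) : T' H F y x z :=
  ⟨T_s1 h.1, by rw [perm1]; exact h.2⟩

theorem T'_s2 {x y z : V} (h : T' H F x y z) : T' H F x z y :=
  ⟨T_s2 h.1, by rw [perm2]; exact h.2⟩

theorem b2_s1 {c d : V} {x y z : V} (h : b2 H F c d x y z) : b2 H F c d y x z := by
  rcases h with h | ⟨h, h'⟩ | ⟨h, h'⟩ | ⟨h, h'⟩
  · exact Or.inl (T'_s1 h)
  · exact Or.inr (Or.inl ⟨h.symm, h'⟩)
  · exact Or.inr (Or.inr (Or.inr ⟨h, h'⟩))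
  · exact Or.inr (Or.inr (Or.inl ⟨h, h'⟩))

theorem b2_s2 {c d : V} {x y z : V} (h : b2 H F c d x y z) : b2 H F c d x z y := by
  rcases h with h | ⟨h, h'⟩ | ⟨h, h'⟩ | ⟨h, h'⟩
  · exact Or.inl (T'_s2 h)
  · exact Or.inr (Or.inr (Or.inr ⟨h, h'⟩))
  · exact Or.inr (Or.inr (Or.inl ⟨h.symm, h'⟩))
  · exact Or.inr (Or.inl ⟨h, h'⟩)

theorem iter_T' (ψ : V → V) (h : ∀ x y z, T H x y z → T' H F (ψ x) (ψ y) (ψ z)) {p q r : V}
    (hp : T H p q r) (n : ℕ) (hn : 1 ≤ n) : T' H F (ψ^[n] p) (ψ^[n] q) (ψ^[n] r) := by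
  have h4 : ∀ n : ℕ, T H (ψ^[n] p) (ψ^[n] q) (ψ^[n] r) := by
    intro n
    induction n with
    | zero => exact hp
    | succ n ih =>
      rw [Function.iterate_succ_apply', Function.iterate_succ_apply',
        Function.iterate_succ_apply']
      exact (h _ _ _ ih).1
  obtain ⟨m, rfl⟩ : ∃ m, n = m + 1 := ⟨n - 1, by omega⟩
  rw [Function.iterate_succ_apply', Function.iterate_succ_apply', Function.iterate_succ_apply']
  exact h _ _ _ (h4 m)

/-- Case 1 : there is an edge all whose vertices have no 0-twin. -/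
theorem bf1 (p q r : V) (hpqr : T H p q r) (hp : ∀ v, T H v = T H p → v = p)
    (hq : ∀ v, T H v = T H q → v = q) (hr : ∀ v, T H v = T H r → v = r)
    (ψ : V → V) (hψ : ∀ x y z, x ≠ y → x ≠ z → y ≠ z →
      (H {x, y, z} ↔ b1 H {p, q, r} (ψ x) (ψ y) (ψ z))) : False := by
  have h1 : ∀ x y z, T H x y z ↔ T' H {p, q, r} (ψ x) (ψ y) (ψ z) := by
    intro x y z
    constructor
    · intro h
      exact (hψ x y z h.1 h.2.1 h.2.2.1).1 h.2.2.2
    · intro h
      have a1 : x ≠ y := fun e => h.1.1 (by rw [e])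
      have a2 : x ≠ z := fun e => h.1.2.1 (by rw [e])
      have a3 : y ≠ z := fun e => h.1.2.2.1 (by rw [e])
      exact ⟨a1, a2, a3, (hψ x y z a1 a2 a3).2 h⟩
  have h2 : ∀ a b, T H a = T H b → T' H {p, q, r} a = T' H {p, q, r} b := by
    intro a b hab
    by_cases hne : a = b
    · rw [hne]
    · have key : ∀ a b : V, a ≠ b → T H a = T H b → ∀ u w, ({a, u, w} : Finset V) ≠ {p, q, r} := by
        intro a b hab' hT u w h
        have ha : a ∈ ({p, q, r} : Finset V) := by rw [← h]; simp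
        simp only [mem_insert, mem_singleton] at ha
        rcases ha with ha | ha | ha
        · subst ha; exact hab' (hp b hT.symm).symm
        · subst ha; exact hab' (hq b hT.symm).symm
        · subst ha; exact hab' (hr b hT.symm).symm
      funext u w
      apply propext
      have k1 := key a b hne hab u w
      have k2 := key b a (Ne.symm hne) hab.symm u w
      simp only [T', k1, k2, ne_eq, not_false_eq_true, and_true]
      rw [hab]
  obtain ⟨m, hm, h3⟩ := lemE (T H) (T' H {p, q, r}) ψ h1 h2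
  have h4 := iter_T' ψ (fun x y z h => (h1 x y z).1 h) hpqr m hm
  rw [hp _ (h3 p), hq _ (h3 q), hr _ (h3 r)] at h4
  exact h4.2 rfl

/-- vertices of a full pair have no 0-twin -/
theorem full_single (c d : V) (hcd : c ≠ d) (hO : ∀ z, z ≠ c → z ≠ d → H {c, d, z})
    (hz : ∃ z, z ≠ c ∧ z ≠ d) (v : V) (hv : T H v = T H c) : v = c := by
  by_contra hvc
  have h0 : ∀ u, ¬ T H c v u := by
    intro u h
    rw [← hv] at h
    exact h.1 rfl
  by_cases hvd : v = d
  · obtain ⟨z, hz1, hz2⟩ := hz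
    apply h0 z
    subst hvd
    exact ⟨hcd, hz1.symm, hz2.symm, hO z hz1 hz2⟩
  · apply h0 d
    exact ⟨Ne.symm hvc, hcd, hvd, by rw [perm2]; exact hO v hvc hvd⟩

theorem full_symm {c d : V} (hO : ∀ z, z ≠ c → z ≠ d → H {c, d, z}) :
    ∀ z, z ≠ d → z ≠ c → H {d, c, z} := by
  intro z h1 h2
  rw [perm1]
  exact hO z h2 h1

/-- Case 2 : every vertex besides `c, d` has a 0-twin. -/
theorem bf2 (c d y0 : V) (hcd : c ≠ d) (hcy : y0 ≠ c) (hdy : y0 ≠ d)
    (hO : ∀ z, z ≠ c → z ≠ d → H {c, d, z})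
    (htw : ∀ y, y ≠ c → y ≠ d → ∃ y', y' ≠ y ∧ T H y' = T H y) (hcard : 5 ≤ Fintype.card V)
    (ψ : V → V) (hU : ∀ u v, ψ u = ψ v → (ψ u = c ∨ ψ u = d ∨ ψ u = y0) → u = v)
    (hψ : ∀ x y z, x ≠ y → x ≠ z → y ≠ z →
      (H {x, y, z} ↔ b2 H {c, d, y0} c d (ψ x) (ψ y) (ψ z))) : False := by
  by_cases hinj : Function.Injective ψ
  · have h1 : ∀ x y z, T H x y z → T' H {c, d, y0} (ψ x) (ψ y) (ψ z) := by
      intro x y z h
      rcases (hψ x y z h.1 h.2.1 h.2.2.1).1 h.2.2.2 with h' | ⟨h', _⟩ | ⟨h', _⟩ | ⟨h', _⟩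
      · exact h'
      · exact absurd (hinj h') h.1
      · exact absurd (hinj h') h.2.2.1
      · exact absurd (hinj h') h.2.1
    have hT : T H c d y0 := ⟨hcd, hcy.symm, hdy.symm, hO y0 hcy hdy⟩
    obtain ⟨n, m, hnm, h5'⟩ := Finite.exists_ne_map_eq_of_infinite (fun n : ℕ => ψ^[n])
    have h5 : ψ^[n] = ψ^[m] := h5'
    have h6 : ∃ m, 1 ≤ m ∧ ∀ x, ψ^[m] x = x := by
      rcases lt_or_gt_of_ne hnm with h | h
      · refine ⟨m - n, by omega, fun x => ?_⟩
        apply hinj.iterate n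
        rw [← Function.iterate_add_apply, show n + (m - n) = m by omega, h5]
      · refine ⟨n - m, by omega, fun x => ?_⟩
        apply hinj.iterate m
        rw [← Function.iterate_add_apply, show m + (n - m) = n by omega, ← h5]
    obtain ⟨m, hm, h7⟩ := h6
    have h8 := iter_T' ψ h1 hT m hm
    rw [h7, h7, h7] at h8
    exact h8.2 rfl
  · -- two vertices in the same class
    simp only [Function.Injective, not_forall] at hinj
    obtain ⟨x, x', hxx, hne⟩ := hinj
    have hiF : ¬ (ψ x = c ∨ ψ x = d ∨ ψ x = y0) := fun h => hne (hU x x' hxx h)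
    push Not at hiF
    have hcodeg : ∀ z, z ≠ x → z ≠ x' → (H {x, x', z} ↔ (ψ z = c ∨ ψ z = d)) := by
      intro z hz1 hz2
      rw [hψ x x' z hne hz1.symm hz2.symm]
      constructor
      · rintro (h | ⟨_, h⟩ | ⟨_, h⟩ | ⟨_, h⟩)
        · exact absurd hxx h.1.1
        · exact h
        · exact absurd h (by simp [hiF.1, hiF.2.1])
        · rw [← hxx] at h
          exact absurd h (by simp [hiF.1, hiF.2.1])
      · intro h
        exact Or.inr (Or.inl ⟨hxx, h⟩)
    have htwin : ∀ u w, u ≠ w → u ≠ x → u ≠ x' → w ≠ x → w ≠ x' →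
        (H {x, u, w} ↔ H {x', u, w}) := by
      intro u w huw h1 h2 h3 h4
      rw [hψ x u w h1.symm h3.symm huw, hψ x' u w h2.symm h4.symm huw, hxx]
    -- claim
    have claim : ∀ x x' : V, x ≠ x' → (∀ u w, u ≠ w → u ≠ x → u ≠ x' → w ≠ x → w ≠ x' →
        (H {x, u, w} ↔ H {x', u, w})) → x ≠ c → x ≠ d →
        ∀ z, z ≠ x → z ≠ x' → ¬ H {x, x', z} := by
      intro x x' hne htwin hxc hxd z hz1 hz2 hH
      obtain ⟨y', hy'1, hy'2⟩ := htw x hxc hxd
      have h0 : ∀ u, ¬ T H x y' u := by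
        intro u h
        rw [← hy'2] at h
        exact h.1 rfl
      by_cases hyx : y' = x'
      · subst hyx
        exact h0 z ⟨hne, hz1.symm, hz2.symm, hH⟩
      · by_cases hzy : z = y'
        · subst hzy
          exact h0 x' ⟨hz1.symm, hne, hz2, by rw [perm2]; exact hH⟩
        · have h1 : T H x x' z := ⟨hne, hz1.symm, hz2.symm, hH⟩
          rw [← hy'2] at h1
          -- H {y', x', z}
          have h2 : H {x', y', z} := by rw [perm1]; exact h1.2.2.2
          have h3 := (htwin y' z (Ne.symm hzy) hy'1 hyx hz1 hz2).2 h2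
          exact h0 z ⟨hy'1.symm, hz1.symm, Ne.symm hzy, h3⟩
    have hzero : ∀ z, z ≠ x → z ≠ x' → ¬ H {x, x', z} := by
      by_cases hx : x ≠ c ∧ x ≠ d
      · exact claim x x' hne htwin hx.1 hx.2
      · by_cases hx' : x' ≠ c ∧ x' ≠ d
        · intro z hz1 hz2 hH
          refine claim x' x (Ne.symm hne) ?_ hx'.1 hx'.2 z hz2 hz1 (by rw [perm1]; exact hH)
          intro u w huw a1 a2 a3 a4
          exact (htwin u w huw a2 a1 a4 a3).symm
        · -- {x, x'} = {c, d}
          exfalso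
          have hxcd : x = c ∨ x = d := by
            by_contra h; push Not at h; exact hx h
          have hxcd' : x' = c ∨ x' = d := by
            by_contra h; push Not at h; exact hx' h
          have hfull : ∀ z, z ≠ c → z ≠ d → H {x, x', z} := by
            intro z h1 h2
            rcases hxcd with rfl | rfl <;> rcases hxcd' with rfl | rfl
            · exact absurd rfl hne
            · exact hO z h1 h2
            · rw [perm1]; exact hO z h1 h2
            · exact absurd rfl hne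
          have hz : ∀ z, z ≠ c → z ≠ d → (ψ z = c ∨ ψ z = d) := by
            intro z h1 h2
            have hzx : z ≠ x := by rcases hxcd with h | h <;> rw [h] <;> assumption
            have hzx' : z ≠ x' := by rcases hxcd' with h | h <;> rw [h] <;> assumption
            exact (hcodeg z hzx hzx').1 (hfull z h1 h2)
          have hc1 : (univ \ {c, d} : Finset V).card ≤ ({c, d} : Finset V).card := by
            apply Finset.card_le_card_of_injOn ψ
            · intro z hz'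
              simp only [coe_sdiff, coe_univ, coe_insert, coe_singleton, Set.mem_diff,
                Set.mem_univ, Set.mem_insert_iff, Set.mem_singleton_iff, not_or, true_and] at hz'
              simp only [coe_insert, coe_singleton, Set.mem_insert_iff, Set.mem_singleton_iff]
              exact hz z hz'.1 hz'.2
            · intro u hu v hv huv
              simp only [coe_sdiff, coe_univ, coe_insert, coe_singleton, Set.mem_diff,
                Set.mem_univ, Set.mem_insert_iff, Set.mem_singleton_iff, not_or, true_and] at hu hv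
              apply hU u v huv
              rcases hz u hu.1 hu.2 with h | h
              · exact Or.inl h
              · exact Or.inr (Or.inl h)
          have hc2 : ({c, d} : Finset V).card = 2 := Finset.card_pair hcd
          have hc3 := Finset.card_sdiff_add_card_eq_card (Finset.subset_univ ({c, d} : Finset V))
          rw [Finset.card_univ] at hc3
          omega
    -- no vertex goes to c or d
    have hno : ∀ z, ψ z ≠ c ∧ ψ z ≠ d := by
      intro z
      by_cases h1 : z = x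
      · rw [h1]; exact ⟨hiF.1, hiF.2.1⟩
      · by_cases h2 : z = x'
        · rw [h2, ← hxx]; exact ⟨hiF.1, hiF.2.1⟩
        · constructor
          · intro h
            exact hzero z h1 h2 ((hcodeg z h1 h2).2 (Or.inl h))
          · intro h
            exact hzero z h1 h2 ((hcodeg z h1 h2).2 (Or.inr h))
    have h1 : ∀ x y z, T H x y z ↔ T H (ψ x) (ψ y) (ψ z) := by
      intro u v w
      constructor
      · intro h
        rcases (hψ u v w h.1 h.2.1 h.2.2.1).1 h.2.2.2 with h' | ⟨_, h'⟩ | ⟨_, h'⟩ | ⟨_, h'⟩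
        · exact h'.1
        · exact absurd h' (by simp [hno w])
        · exact absurd h' (by simp [hno u])
        · exact absurd h' (by simp [hno v])
      · intro h
        have a1 : u ≠ v := fun e => h.1 (by rw [e])
        have a2 : u ≠ w := fun e => h.2.1 (by rw [e])
        have a3 : v ≠ w := fun e => h.2.2.1 (by rw [e])
        refine ⟨a1, a2, a3, (hψ u v w a1 a2 a3).2 (Or.inl ⟨h, ?_⟩)⟩
        intro h5
        have : c ∈ ({ψ u, ψ v, ψ w} : Finset V) := by rw [h5]; simp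
        simp only [mem_insert, mem_singleton] at this
        rcases this with h6 | h6 | h6
        · exact (hno u).1 h6.symm
        · exact (hno v).1 h6.symm
        · exact (hno w).1 h6.symm
    obtain ⟨m, hm, h3⟩ := lemE (T H) (T H) ψ h1 (fun a b h => h)
    have h4 := full_single c d hcd hO ⟨y0, hcy, hdy⟩ _ (h3 c)
    obtain ⟨m', rfl⟩ : ∃ m', m = m' + 1 := ⟨m - 1, by omega⟩
    rw [Function.iterate_succ_apply'] at h4
    exact (hno _).1 h4

/-- the dangerous situation -/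
def Danger (H : Finset V → Prop) (c d : V) : Prop :=
  ∃ P : V → Prop, (∃ x, x ≠ c ∧ x ≠ d ∧ P x) ∧ (∃ y, y ≠ c ∧ y ≠ d ∧ ¬ P y) ∧
    ∀ x y, x ≠ c → x ≠ d → y ≠ c → y ≠ d → P x → ¬ P y → ∀ z, z ≠ x → z ≠ y → ¬ H {x, y, z}

theorem cross1 (c d : V) (hcd : c ≠ d) (hO : ∀ z, z ≠ c → z ≠ d → H {c, d, z})
    (hz : ∃ z, z ≠ c ∧ z ≠ d) (hD : ¬ Danger H c d) (p q r : V) (b : V → V → V → Prop)
    (hs1 : ∀ x y z, b x y z → b y x z) (hs2 : ∀ x y z, b x y z → b x z y) (hbF : ¬ b p q r)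
    (hpq : p ≠ q) (hpr : p ≠ r) (hqr : q ≠ r)
    (κ : V → Option (V × ℕ)) (h1 : ∀ v w p, κ v = some p → κ w = some p → v = w)
    (h2 : ∀ v s, κ v = some s → (s.1 = p ∨ s.1 = q ∨ s.1 = r) → s.2 = 0) (h3 : ∃ v, κ v = none)
    (h4 : ∃ v s, κ v = some s ∧ s.1 ≠ p ∧ s.1 ≠ q ∧ s.1 ≠ r)
    (h5 : ∀ x y z, x ≠ y → x ≠ z → y ≠ z → ∀ s1 s2 s3, κ x = some s1 → κ y = some s2 →
        κ z = some s3 → (H {x, y, z} ↔ b s1.1 s2.1 s3.1))
    (h6 : ∀ x y z, x ≠ y → x ≠ z → y ≠ z → κ x = none → ∀ s, κ y = some s → s.1 ≠ p → s.1 ≠ q →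
        s.1 ≠ r → (H {x, y, z} ↔ False)) : False := by
  -- codegree zero
  have hzero : ∀ x y, κ x = none → (∃ s, κ y = some s ∧ s.1 ≠ p ∧ s.1 ≠ q ∧ s.1 ≠ r) →
      x ≠ y ∧ ∀ z, z ≠ x → z ≠ y → ¬ H {x, y, z} := by
    rintro x y hx ⟨s, hs, a1, a2, a3⟩
    have hxy : x ≠ y := by rintro rfl; rw [hx] at hs; exact absurd hs (by simp)
    exact ⟨hxy, fun z hz1 hz2 => (h6 x y z hxy hz1.symm hz2.symm hx s hs a1 a2 a3).1⟩
  obtain ⟨x0, hx0⟩ := h3
  obtain ⟨y0, s0, hy0, hs0⟩ := h4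
  -- neither c nor d is outside or new
  have hgen : ∀ c d : V, c ≠ d → (∀ z, z ≠ c → z ≠ d → H {c, d, z}) → (∃ z, z ≠ c ∧ z ≠ d) →
      κ c ≠ none ∧ ¬ (∃ s, κ c = some s ∧ s.1 ≠ p ∧ s.1 ≠ q ∧ s.1 ≠ r) := by
    intro c d hcd hO hz
    constructor
    · intro hc
      obtain ⟨hne, hh⟩ := hzero c y0 hc ⟨s0, hy0, hs0⟩
      by_cases hyd : y0 = d
      · subst hyd
        obtain ⟨z, hz1, hz2⟩ := hz
        exact hh z hz1 hz2 (hO z hz1 hz2)
      · apply hh d hcd.symm (Ne.symm hyd)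
        rw [perm2]
        exact hO y0 hne.symm hyd
    · intro hc
      obtain ⟨hne, hh⟩ := hzero x0 c hx0 hc
      by_cases hxd : x0 = d
      · subst hxd
        obtain ⟨z, hz1, hz2⟩ := hz
        apply hh z hz2 hz1
        rw [perm1]; exact hO z hz1 hz2
      · apply hh d (Ne.symm hxd) hcd.symm
        rw [perm1, perm2]
        exact hO x0 hne hxd
  have hc := hgen c d hcd hO hz
  have hd := hgen d c hcd.symm (full_symm hO) (by obtain ⟨z, a, b⟩ := hz; exact ⟨z, b, a⟩)
  -- base vertices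
  have hbase : ∀ v, κ v ≠ none → ¬ (∃ s, κ v = some s ∧ s.1 ≠ p ∧ s.1 ≠ q ∧ s.1 ≠ r) →
      ∃ s, κ v = some s ∧ (s.1 = p ∨ s.1 = q ∨ s.1 = r) ∧ s.2 = 0 := by
    intro v hv hv2
    obtain ⟨s, hs⟩ := Option.ne_none_iff_exists'.1 hv
    have h7 : s.1 = p ∨ s.1 = q ∨ s.1 = r := by
      by_contra hcon
      push Not at hcon
      exact hv2 ⟨s, hs, hcon⟩
    exact ⟨s, hs, h7, h2 v s hs h7⟩
  obtain ⟨sc, hsc, hsc1, hsc2⟩ := hbase c hc.1 hc.2
  obtain ⟨sd, hsd, hsd1, hsd2⟩ := hbase d hd.1 hd.2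
  apply hD
  refine ⟨fun v => κ v = none, ⟨x0, ?_, ?_, hx0⟩, ⟨y0, ?_, ?_, ?_⟩, ?_⟩
  · rintro rfl; exact hc.1 hx0
  · rintro rfl; exact hd.1 hx0
  · rintro rfl; exact hc.2 ⟨s0, hy0, hs0⟩
  · rintro rfl; exact hd.2 ⟨s0, hy0, hs0⟩
  · show ¬ κ y0 = none
    rw [hy0]; simp
  · intro x y hxc hxd hyc hyd hx hy
    by_cases hynew : ∃ s, κ y = some s ∧ s.1 ≠ p ∧ s.1 ≠ q ∧ s.1 ≠ r
    · exact (hzero x y hx hynew).2
    · exfalso
      obtain ⟨sy, hsy, hsy1, hsy2⟩ := hbase y hy hynew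
      have hH : H {c, d, y} := hO y hyc hyd
      rw [h5 c d y hcd hyc.symm hyd.symm sc sd sy hsc hsd hsy] at hH
      have n1 : sc.1 ≠ sd.1 := by
        intro h
        exact hcd (h1 c d sc hsc (by rw [hsd]; congr 1; exact (Prod.ext h (hsc2.trans hsd2.symm)).symm))
      have n2 : sc.1 ≠ sy.1 := by
        intro h
        exact hyc (h1 c y sc hsc (by rw [hsy]; congr 1; exact (Prod.ext h (hsc2.trans hsy2.symm)).symm)).symm
      have n3 : sd.1 ≠ sy.1 := by
        intro h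
        exact hyd (h1 d y sd hsd (by rw [hsy]; congr 1; exact (Prod.ext h (hsd2.trans hsy2.symm)).symm)).symm
      apply hbF
      rcases hsc1 with e1 | e1 | e1 <;> rcases hsd1 with e2 | e2 | e2 <;>
        rcases hsy1 with e3 | e3 | e3 <;> rw [e1, e2, e3] at hH <;>
        first
        | (exfalso; apply n1; rw [e1, e2]; done)
        | (exfalso; apply n2; rw [e1, e3]; done)
        | (exfalso; apply n3; rw [e2, e3]; done)
        | exact hH
        | exact hs1 _ _ _ hH
        | exact hs2 _ _ _ hH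
        | exact hs1 _ _ _ (hs2 _ _ _ hH)
        | exact hs2 _ _ _ (hs1 _ _ _ hH)
        | exact hs1 _ _ _ (hs2 _ _ _ (hs1 _ _ _ hH))

theorem cross2 (c d : V) (hD : Danger H c d) (hcard : 6 ≤ Fintype.card V) (p q r : V)
    (κ : V → Option (V × ℕ)) (h1 : ∀ v w p, κ v = some p → κ w = some p → v = w)
    (h2 : ∀ v s, κ v = some s → (s.1 = p ∨ s.1 = q ∨ s.1 = r) → s.2 = 0) (h3 : ∃ v, κ v = none)
    (h4 : ∃ v s, κ v = some s ∧ s.1 ≠ p ∧ s.1 ≠ q ∧ s.1 ≠ r)
    (h6 : ∀ x y z, x ≠ y → x ≠ z → y ≠ z → κ x = none → ∀ s, κ y = some s → s.1 ≠ p → s.1 ≠ q →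
        s.1 ≠ r → (H {x, y, z} ↔ True)) : False := by
  have hfull : ∀ x y, κ x = none → (∃ s, κ y = some s ∧ s.1 ≠ p ∧ s.1 ≠ q ∧ s.1 ≠ r) →
      x ≠ y ∧ ∀ z, z ≠ x → z ≠ y → H {x, y, z} := by
    rintro x y hx ⟨s, hs, a1, a2, a3⟩
    have hxy : x ≠ y := by rintro rfl; rw [hx] at hs; exact absurd hs (by simp)
    exact ⟨hxy, fun z hz1 hz2 => (h6 x y z hxy hz1.symm hz2.symm hx s hs a1 a2 a3).2 trivial⟩
  obtain ⟨x0, hx0⟩ := h3
  obtain ⟨y0, s0, hy0, hs0⟩ := h4
  obtain ⟨P, ⟨u0, hu1, hu2, hu3⟩, ⟨w0, hw1, hw2, hw3⟩, hP⟩ := hD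
  have hthird : ∀ a b : V, ∃ z : V, z ≠ a ∧ z ≠ b := by
    intro a b
    by_contra hcon
    push Not at hcon
    have : (univ : Finset V) ⊆ {a, b} := by
      intro z _
      simp only [mem_insert, mem_singleton]
      by_contra h; push Not at h
      exact h.2 (hcon z h.1)
    have := Finset.card_le_card this
    rw [Finset.card_univ] at this
    have := Finset.card_le_two (a := a) (b := b)
    omega
  -- every vertex besides c, d is in a codegree zero pair
  have hZ : ∀ v, v ≠ c → v ≠ d → ∃ w, w ≠ v ∧ ∀ z, z ≠ v → z ≠ w → ¬ H {v, w, z} := by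
    intro v hvc hvd
    by_cases hv : P v
    · refine ⟨w0, ?_, hP v w0 hvc hvd hw1 hw2 hv hw3⟩
      rintro rfl; exact hw3 hv
    · refine ⟨u0, ?_, ?_⟩
      · rintro rfl; exact hv hu3
      · intro z hz1 hz2 hH
        exact hP u0 v hu1 hu2 hvc hvd hu3 hv z hz2 hz1 (by rw [perm1]; exact hH)
  have hW : ∀ v, v ≠ c → v ≠ d → κ v ≠ none ∧
      ¬ (∃ s, κ v = some s ∧ s.1 ≠ p ∧ s.1 ≠ q ∧ s.1 ≠ r) := by
    intro v hvc hvd
    obtain ⟨w, hwv, hw⟩ := hZ v hvc hvd
    have key : ∀ u, u ≠ v → (∀ z, z ≠ v → z ≠ u → H {v, u, z}) → False := by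
      intro u huv hu
      by_cases huw : u = w
      · subst huw
        obtain ⟨z, hz1, hz2⟩ := hthird v u
        exact hw z hz1 hz2 (hu z hz1 hz2)
      · apply hw u huv huw
        rw [perm2]
        exact hu w hwv (Ne.symm huw)
    constructor
    · intro hv
      obtain ⟨hne, hh⟩ := hfull v y0 hv ⟨s0, hy0, hs0⟩
      exact key y0 hne.symm hh
    · intro hv
      obtain ⟨hne, hh⟩ := hfull x0 v hx0 hv
      apply key x0 hne
      intro z hz1 hz2
      rw [perm1]
      exact hh z hz2 hz1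
  have hmap : ∀ v, v ≠ c → v ≠ d → ∃ s, κ v = some s ∧ s ∈ ({(p, 0), (q, 0), (r, 0)} : Finset (V × ℕ)) := by
    intro v hvc hvd
    obtain ⟨a1, a2⟩ := hW v hvc hvd
    obtain ⟨s, hs⟩ := Option.ne_none_iff_exists'.1 a1
    have h7 : s.1 = p ∨ s.1 = q ∨ s.1 = r := by
      by_contra hcon
      push Not at hcon
      exact a2 ⟨s, hs, hcon⟩
    refine ⟨s, hs, ?_⟩
    have h8 := h2 v s hs h7
    simp only [mem_insert, mem_singleton]
    rcases h7 with h | h | h
    · exact Or.inl (Prod.ext h h8)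
    · exact Or.inr (Or.inl (Prod.ext h h8))
    · exact Or.inr (Or.inr (Prod.ext h h8))
  have hc1 : (univ \ {c, d} : Finset V).card ≤ ({(p, 0), (q, 0), (r, 0)} : Finset (V × ℕ)).card := by
    apply Finset.card_le_card_of_injOn (fun v => (κ v).getD (p, 0))
    · intro v hv
      simp only [coe_sdiff, coe_univ, coe_insert, coe_singleton, Set.mem_diff,
        Set.mem_univ, Set.mem_insert_iff, Set.mem_singleton_iff, not_or, true_and] at hv
      obtain ⟨s, hs, hs2⟩ := hmap v hv.1 hv.2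
      simp only [hs, Option.getD_some]
      exact hs2
    · intro u hu v hv huv
      simp only [coe_sdiff, coe_univ, coe_insert, coe_singleton, Set.mem_diff,
        Set.mem_univ, Set.mem_insert_iff, Set.mem_singleton_iff, not_or, true_and] at hu hv
      obtain ⟨s, hs, _⟩ := hmap u hu.1 hu.2
      obtain ⟨s', hs', _⟩ := hmap v hv.1 hv.2
      simp only [hs, hs', Option.getD_some] at huv
      subst huv
      exact h1 u v s hs hs'
  have hc2 : ({(p, 0), (q, 0), (r, 0)} : Finset (V × ℕ)).card ≤ 3 := Finset.card_le_three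
  have hc3 := Finset.card_sdiff_add_card_eq_card (Finset.subset_univ ({c, d} : Finset V))
  rw [Finset.card_univ] at hc3
  have hc4 := Finset.card_le_two (a := c) (b := d)
  omega

end

end Pool.Agent.H13.Sat
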