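import Mathlib

set_option autoImplicit false
set_option linter.all false

namespace Pool.Agent.H13.Sat

open Finset

/-- A gadget for the status `α` : how to attach to a `k`-set of status `α` infinitely many new
vertices so that flipping the `k`-set creates `H` robustly, while no copy of `H` is created. -/
structure Gad (k : ℕ) {V : Type} [Fintype V] [DecidableEq V] (H : Finset V → Prop) (α : Bool) where
  f : Fin k → V
  finj : Function.Injective f
  rest : ∃ v, ∀ i, f i ≠ v
  st : Finset (V × ℕ) → Prop
  cr : Finset (V × ℕ) → Prop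
  flip : H (univ.image f) ↔ α = false
  base : st (univ.image (fun i => (f i, 0))) ↔ α = true
  trans : ∀ (S : Finset V) (n : V → ℕ), S.card = k → S ≠ univ.image f → (∀ i, n (f i) = 0) →
    (st (S.image (fun v => (v, n v))) ↔ H S)
  bfree : ∀ κ : V → V × ℕ, Function.Injective κ → (∀ v i, (κ v).1 = f i → (κ v).2 = 0) →
    (∀ S : Finset V, S.card = k → (H S ↔ st (S.image κ))) → False
  cross : ∀ κ : V → Option (V × ℕ), (∀ v w p, κ v = some p → κ w = some p → v = w) →
    (∀ v p i, κ v = some p → p.1 = f i → p.2 = 0) → (∃ v, κ v = none) →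
    (∃ v p, κ v = some p ∧ ∀ i, p.1 ≠ f i) →
    (∀ S : Finset V, S.card = k → (∀ v ∈ S, κ v ≠ none) →
      (H S ↔ st (eraseNone (S.image κ)))) →
    (∀ S : Finset V, S.card = k → (∃ v ∈ S, κ v = none) →
      (∃ v ∈ S, ∃ p, κ v = some p ∧ ∀ i, p.1 ≠ f i) →
      (H S ↔ cr (eraseNone (S.image κ)))) → False

section Enum

variable (k : ℕ)

open Classical in
/-- enumeration of the injective `k`-tuples of vertices, each with stages `< m`. -/
noncomputable def tup (m : ℕ) : Fin k → ℕ × ℕ :=
  match (Encodable.decode (Nat.unpair m).1 : Option (Fin k → ℕ × ℕ)) with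
  | some t => if Function.Injective t ∧ ∀ i, (t i).1 < m then t else fun i => (0, i)
  | none => fun i => (0, i)

theorem tup_spec (m : ℕ) (hm : 1 ≤ m) :
    Function.Injective (tup k m) ∧ ∀ i, (tup k m i).1 < m := by
  have hd : Function.Injective (fun i : Fin k => ((0 : ℕ), (i : ℕ))) ∧
      ∀ i : Fin k, ((0 : ℕ), (i : ℕ)).1 < m := by
    refine ⟨?_, fun i => by show 0 < m; omega⟩
    intro i j h
    simpa [Fin.ext_iff] using h
  unfold tup
  cases h : (Encodable.decode (Nat.unpair m).1 : Option (Fin k → ℕ × ℕ)) with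
  | none => simpa using hd
  | some t =>
    simp only
    split_ifs with h2
    · exact h2
    · exact hd

theorem tup_surj (t : Fin k → ℕ × ℕ) (ht : Function.Injective t) :
    ∃ m, 1 ≤ m ∧ tup k m = t := by
  classical
  let M := (univ.sup fun i => (t i).1) + 1
  refine ⟨Nat.pair (Encodable.encode t) M, ?_, ?_⟩
  · have := Nat.right_le_pair (Encodable.encode t) M
    omega
  · unfold tup
    rw [Nat.unpair_pair]
    simp only [Encodable.encodek]
    rw [if_pos]
    refine ⟨ht, fun i => ?_⟩
    have h1 : (t i).1 ≤ univ.sup fun i => (t i).1 := Finset.le_sup (f := fun i => (t i).1) (mem_univ i)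
    have := Nat.right_le_pair (Encodable.encode t) M
    omega

end Enum

section Stage

variable {k : ℕ} {V : Type} [Fintype V] [DecidableEq V] {H : Finset V → Prop}

theorem exists_dec {α : Bool} (g : Gad k H α) :
    ∃ d : ℕ → V × ℕ, Function.Injective d ∧ (∀ j i, (d j).1 ≠ g.f i) ∧
      ∀ p : V × ℕ, (∀ i, p.1 ≠ g.f i) → ∃ j, d j = p := by
  classical
  obtain ⟨v0, hv0⟩ := g.rest
  let R := {v : V // ∀ i, v ≠ g.f i}
  haveI : Nonempty R := ⟨⟨v0, fun i h => hv0 i h.symm⟩⟩
  haveI : Infinite (R × ℕ) := Prod.infinite_of_right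
  haveI : Countable (R × ℕ) := inferInstance
  obtain ⟨e⟩ : Nonempty (ℕ ≃ R × ℕ) := by
    haveI := Classical.choice (nonempty_denumerable (R × ℕ))
    exact ⟨(Denumerable.eqv (R × ℕ)).symm⟩
  refine ⟨fun j => ((e j).1.1, (e j).2), ?_, fun j => (e j).1.2, ?_⟩
  · intro a b h
    simp only [Prod.mk.injEq] at h
    apply e.injective
    exact Prod.ext (Subtype.ext h.1) h.2
  · intro p hp
    refine ⟨e.symm (⟨p.1, hp⟩, p.2), ?_⟩
    simp

noncomputable def dec {α : Bool} (g : Gad k H α) : ℕ → V × ℕ := (exists_dec g).choose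

theorem dec_inj {α : Bool} (g : Gad k H α) : Function.Injective (dec g) :=
  (exists_dec g).choose_spec.1

theorem dec_ne {α : Bool} (g : Gad k H α) (j : ℕ) (i : Fin k) : (dec g j).1 ≠ g.f i :=
  (exists_dec g).choose_spec.2.1 j i

theorem dec_surj {α : Bool} (g : Gad k H α) (p : V × ℕ) (hp : ∀ i, p.1 ≠ g.f i) :
    ∃ j, dec g j = p := (exists_dec g).choose_spec.2.2 p hp

open Classical in
/-- the role of a vertex with respect to the gadget attached at stage `m`. -/
noncomputable def role {α : Bool} (g : Gad k H α) (m : ℕ) (w : ℕ × ℕ) : Option (V × ℕ) :=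
  if w.1 = m then some (dec g w.2)
  else if h : ∃ i, tup k m i = w then some (g.f h.choose, 0) else none

theorem role_new {α : Bool} (g : Gad k H α) (m j : ℕ) : role g m (m, j) = some (dec g j) := by
  simp [role]

theorem role_new' {α : Bool} (g : Gad k H α) (m : ℕ) (w : ℕ × ℕ) (h : w.1 = m) :
    role g m w = some (dec g w.2) := by
  simp [role, h]

theorem role_tup {α : Bool} (g : Gad k H α) (m : ℕ) (hm : 1 ≤ m) (i : Fin k) :
    role g m (tup k m i) = some (g.f i, 0) := by
  have h1 := (tup_spec k m hm).2 i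
  have h2 : ∃ j, tup k m j = tup k m i := ⟨i, rfl⟩
  unfold role
  rw [if_neg (by omega), dif_pos h2]
  have := (tup_spec k m hm).1 h2.choose_spec
  rw [this]

theorem role_cases {α : Bool} (g : Gad k H α) (m : ℕ) (hm : 1 ≤ m) (w : ℕ × ℕ) (p : V × ℕ)
    (h : role g m w = some p) :
    (w.1 = m ∧ p = dec g w.2) ∨ (∃ i, tup k m i = w ∧ p = (g.f i, 0)) := by
  unfold role at h
  split_ifs at h with h1 h2
  · left
    exact ⟨h1, by simpa using h.symm⟩
  · right
    exact ⟨h2.choose, h2.choose_spec, by simpa using h.symm⟩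

theorem role_inj {α : Bool} (g : Gad k H α) (m : ℕ) (hm : 1 ≤ m) (w w' : ℕ × ℕ) (p : V × ℕ)
    (h : role g m w = some p) (h' : role g m w' = some p) : w = w' := by
  rcases role_cases g m hm w p h with ⟨h1, h2⟩ | ⟨i, h1, h2⟩ <;>
  rcases role_cases g m hm w' p h' with ⟨h3, h4⟩ | ⟨j, h3, h4⟩
  · have : dec g w.2 = dec g w'.2 := h2.symm.trans h4
    exact Prod.ext (h1.trans h3.symm) (dec_inj g this)
  · exfalso
    have h5 : (dec g w.2).1 = g.f j := by rw [← h2, h4]
    exact dec_ne g _ _ h5
  · exfalso
    have h5 : (dec g w'.2).1 = g.f i := by rw [← h4, h2]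
    exact dec_ne g _ _ h5
  · have h5 : g.f i = g.f j := by
      have := h2.symm.trans h4
      simpa using this
    rw [← h1, ← h3, g.finj h5]

/-- status of a set whose top stage is `m`. -/
def Val {α : Bool} (g : Gad k H α) (m : ℕ) (S : Finset (ℕ × ℕ)) : Prop :=
  ((∃ w ∈ S, role g m w = none) ∧ g.cr (eraseNone (S.image (role g m)))) ∨
  ((∀ w ∈ S, role g m w ≠ none) ∧ g.st (eraseNone (S.image (role g m))))

def mx (S : Finset (ℕ × ℕ)) : ℕ := S.sup Prod.fst

open Classical in
noncomputable def A (gad : ∀ α : Bool, Gad k H α) (m : ℕ) : Bool :=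
  if h : mx (univ.image (tup k m)) < m ∧ mx (univ.image (tup k m)) ≠ 0 then
    decide (Val (gad (A gad (mx (univ.image (tup k m))))) (mx (univ.image (tup k m)))
      (univ.image (tup k m)))
  else false
termination_by m
decreasing_by exact h.1

def GG (gad : ∀ α : Bool, Gad k H α) : Set (Finset (ℕ × ℕ)) :=
  {S | S.card = k ∧ mx S ≠ 0 ∧ Val (gad (A gad (mx S))) (mx S) S}

theorem mx_tup (m : ℕ) (hm : 1 ≤ m) : mx (univ.image (tup k m)) < m := by
  unfold mx
  rw [Finset.sup_lt_iff (by show 0 < m; omega)]
  intro w hw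
  simp only [mem_image, mem_univ, true_and] at hw
  obtain ⟨i, rfl⟩ := hw
  exact (tup_spec k m hm).2 i

theorem card_tup (m : ℕ) (hm : 1 ≤ m) : (univ.image (tup k m)).card = k := by
  rw [Finset.card_image_of_injective _ (tup_spec k m hm).1]
  simp

theorem A_iff (gad : ∀ α : Bool, Gad k H α) (m : ℕ) (hm : 1 ≤ m) :
    A gad m = true ↔ univ.image (tup k m) ∈ GG gad := by
  rw [A]
  have h1 := mx_tup (k := k) m hm
  have h2 := card_tup (k := k) m hm
  simp only [GG, Set.mem_setOf_eq]
  split_ifs with h
  · simp [h2, h.2]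
  · simp only [Bool.false_eq_true, false_iff]
    rintro ⟨_, h3, _⟩
    exact h ⟨h1, h3⟩

theorem le_mx {S : Finset (ℕ × ℕ)} {w : ℕ × ℕ} (h : w ∈ S) : w.1 ≤ mx S :=
  Finset.le_sup (f := Prod.fst) h

theorem exists_mx {S : Finset (ℕ × ℕ)} (h : S.Nonempty) : ∃ w ∈ S, w.1 = mx S := by
  obtain ⟨w, hw, h2⟩ := Finset.exists_mem_eq_sup S h Prod.fst
  exact ⟨w, hw, h2.symm⟩

theorem mem_GG (gad : ∀ α : Bool, Gad k H α) {S : Finset (ℕ × ℕ)} (hc : S.card = k) (m : ℕ)
    (hm : 1 ≤ m) (hle : ∀ w ∈ S, w.1 ≤ m) (hex : ∃ w ∈ S, w.1 = m) :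
    S ∈ GG gad ↔ Val (gad (A gad m)) m S := by
  have h1 : mx S = m := by
    obtain ⟨w, hw, h2⟩ := hex
    apply le_antisymm
    · exact Finset.sup_le hle
    · rw [← h2]; exact le_mx hw
  subst h1
  simp only [GG, Set.mem_setOf_eq]
  constructor
  · rintro ⟨_, _, h⟩; exact h
  · intro h; exact ⟨hc, by omega, h⟩

/-- The stage hypergraph has no copy of `H`. -/
theorem no_copy (gad : ∀ α : Bool, Gad k H α) (hk : 1 ≤ k)
    (hE : ∃ S : Finset V, S.card = k ∧ H S) (φ : V → ℕ × ℕ) (hφ : Function.Injective φ)
    (hc : ∀ S : Finset V, S.card = k → (H S ↔ S.image φ ∈ GG gad)) : False := by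
  classical
  obtain ⟨S0, hS0, hHS0⟩ := hE
  have hV : Nonempty V := by
    have : S0.Nonempty := by
      rw [← Finset.card_pos]; omega
    exact ⟨this.choose⟩
  set m := mx (univ.image φ) with hmdef
  have hle : ∀ v, (φ v).1 ≤ m := fun v => le_mx (mem_image_of_mem _ (mem_univ v))
  obtain ⟨w0, hw0, hw0m⟩ : ∃ w ∈ univ.image φ, w.1 = mx (univ.image φ) :=
    exists_mx ⟨φ hV.some, mem_image_of_mem _ (mem_univ _)⟩
  simp only [mem_image, mem_univ, true_and] at hw0
  obtain ⟨v0, rfl⟩ := hw0
  have hm1 : 1 ≤ m := by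
    by_contra hm0
    have h0 : m = 0 := by omega
    have h1 := (hc S0 hS0).1 hHS0
    apply h1.2.1
    apply Nat.le_zero.1
    apply Finset.sup_le
    intro w hw
    simp only [mem_image] at hw
    obtain ⟨v, _, rfl⟩ := hw
    have := hle v
    omega
  set α := A gad m with hα
  set g := gad α with hg
  let κ : V → Option (V × ℕ) := fun v => role g m (φ v)
  have hκinj : ∀ v w p, κ v = some p → κ w = some p → v = w := by
    intro v w p h1 h2
    exact hφ (role_inj g m hm1 _ _ p h1 h2)
  have hκU : ∀ v p i, κ v = some p → p.1 = g.f i → p.2 = 0 := by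
    intro v p i h1 h2
    rcases role_cases g m hm1 _ p h1 with ⟨_, h4⟩ | ⟨j, _, h4⟩
    · exfalso
      rw [h4] at h2
      exact dec_ne g _ _ h2
    · rw [h4]
  have himg : ∀ S : Finset V, (S.image φ).image (role g m) = S.image κ := by
    intro S
    rw [Finset.image_image]
    rfl
  -- the sets meeting stage m
  have hval : ∀ S : Finset V, S.card = k → (∃ v ∈ S, (φ v).1 = m) →
      (H S ↔ ((∃ v ∈ S, κ v = none) ∧ g.cr (eraseNone (S.image κ))) ∨
        ((∀ v ∈ S, κ v ≠ none) ∧ g.st (eraseNone (S.image κ)))) := by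
    intro S hS hex
    rw [hc S hS, mem_GG gad (by rw [Finset.card_image_of_injective _ hφ, hS]) m hm1
      (by intro w hw; simp only [mem_image] at hw; obtain ⟨v, _, rfl⟩ := hw; exact hle v)
      (by obtain ⟨v, hv, h⟩ := hex; exact ⟨φ v, mem_image_of_mem _ hv, h⟩)]
    unfold Val
    rw [himg S]
    simp only [mem_image, exists_exists_and_eq_and, forall_exists_index, and_imp,
      forall_apply_eq_imp_iff₂]
    rfl
  -- sets with all roles
  have hst : ∀ S : Finset V, S.card = k → (∀ v ∈ S, κ v ≠ none) →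
      (H S ↔ g.st (eraseNone (S.image κ))) := by
    intro S hS hnn
    by_cases hex : ∃ v ∈ S, (φ v).1 = m
    · rw [hval S hS hex]
      constructor
      · rintro (⟨⟨v, hv, h⟩, _⟩ | ⟨_, h⟩)
        · exact absurd h (hnn v hv)
        · exact h
      · intro h; exact Or.inr ⟨hnn, h⟩
    · push Not at hex
      have h1 : ∀ v ∈ S, ∃ i, tup k m i = φ v ∧ κ v = some (g.f i, 0) := by
        intro v hv
        obtain ⟨p, hp⟩ := Option.ne_none_iff_exists'.1 (hnn v hv)
        rcases role_cases g m hm1 _ p hp with ⟨h3, _⟩ | ⟨i, h3, h4⟩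
        · exact absurd h3 (hex v hv)
        · exact ⟨i, h3, by rw [hp, h4]⟩
      have h2 : S.image φ = univ.image (tup k m) := by
        apply Finset.eq_of_subset_of_card_le
        · intro w hw
          simp only [mem_image] at hw
          obtain ⟨v, hv, rfl⟩ := hw
          obtain ⟨i, hi, _⟩ := h1 v hv
          exact mem_image.2 ⟨i, mem_univ _, hi⟩
        · rw [card_tup m hm1, Finset.card_image_of_injective _ hφ, hS]
      have h3 : eraseNone (S.image κ) = univ.image (fun i => (g.f i, 0)) := by
        ext p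
        simp only [mem_eraseNone, mem_image, mem_univ, true_and]
        constructor
        · rintro ⟨v, hv, hvp⟩
          obtain ⟨i, _, hi2⟩ := h1 v hv
          rw [hi2] at hvp
          exact ⟨i, by simpa using hvp⟩
        · rintro ⟨i, rfl⟩
          have h4 : tup k m i ∈ S.image φ := by
            rw [h2]; exact mem_image_of_mem _ (mem_univ i)
          simp only [mem_image] at h4
          obtain ⟨v, hv, hvi⟩ := h4
          refine ⟨v, hv, ?_⟩
          show role g m (φ v) = _
          rw [hvi, role_tup g m hm1]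
      rw [h3, hc S hS, h2, ← A_iff gad m hm1, g.base]
  by_cases hnone : ∃ v, κ v = none
  · refine g.cross κ hκinj hκU hnone ?_ hst ?_
    · refine ⟨v0, dec g (φ v0).2, role_new' g m _ hw0m, fun i => dec_ne g _ i⟩
    · intro S hS h1 h2
      obtain ⟨v, hv, p, hp, hpf⟩ := h2
      have h3 : (φ v).1 = m := by
        rcases role_cases g m hm1 _ p hp with ⟨h3, _⟩ | ⟨i, _, h4⟩
        · exact h3
        · exfalso
          exact hpf i (by rw [h4])
      rw [hval S hS ⟨v, hv, h3⟩]
      constructor
      · rintro (⟨_, h⟩ | ⟨h, _⟩)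
        · exact h
        · obtain ⟨u, hu, hu2⟩ := h1
          exact absurd hu2 (h u hu)
      · intro h; exact Or.inl ⟨h1, h⟩
  · push Not at hnone
    have h1 : ∀ v, ∃ p, κ v = some p := fun v => Option.ne_none_iff_exists'.1 (hnone v)
    choose κ' hκ' using h1
    refine g.bfree κ' ?_ ?_ ?_
    · intro v w h
      exact hκinj v w (κ' v) (hκ' v) (by rw [h]; exact hκ' w)
    · intro v i h
      exact hκU v (κ' v) i (hκ' v) h
    · intro S hS
      rw [hst S hS (fun v _ => hnone v)]
      have : eraseNone (S.image κ) = S.image κ' := by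
        ext p
        simp only [mem_eraseNone, mem_image]
        constructor
        · rintro ⟨v, hv, h⟩
          refine ⟨v, hv, ?_⟩
          rw [hκ' v] at h
          simpa using h
        · rintro ⟨v, hv, rfl⟩
          exact ⟨v, hv, hκ' v⟩
      rw [this]

end Stage

theorem exists_far {V W : Type} [Fintype V] [DecidableEq V] (P : Set (Finset W))
    (hP : ∀ w : W, {e ∈ P | w ∈ e}.Finite) (bs : V → Prop) (b : V → W) (x : V → ℕ → W)
    (hx : ∀ v, Function.Injective (x v)) :
    ∃ ψ : V → W, (∀ v, bs v → ψ v = b v) ∧ (∀ v, ¬ bs v → ∃ n, ψ v = x v n) ∧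
      ∀ u v, u ≠ v → ¬ bs v → ∀ e ∈ P, ψ u ∈ e → ψ v ∈ e → False := by
  classical
  have key : ∀ s : Finset V, ∃ ψ : V → W, (∀ v, bs v → ψ v = b v) ∧
      (∀ v, ¬ bs v → ∃ n, ψ v = x v n) ∧
      ∀ u v, u ≠ v → (u ∈ s ∨ bs u) → v ∈ s → ¬ bs v → ∀ e ∈ P, ψ u ∈ e → ψ v ∈ e → False := by
    intro s
    induction s using Finset.induction_on with
    | empty =>
      refine ⟨fun v => if bs v then b v else x v 0, fun v h => by simp [h],
        fun v h => ⟨0, by simp [h]⟩, ?_⟩
      intro u v _ _ hv
      simp at hv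
    | insert a s ha ih =>
      obtain ⟨ψ, h1, h2, h3⟩ := ih
      by_cases hba : bs a
      · refine ⟨ψ, h1, h2, ?_⟩
        intro u v huv hu hv hbv
        have hv' : v ∈ s := by
          rcases Finset.mem_insert.1 hv with rfl | h
          · exact absurd hba hbv
          · exact h
        have hu' : u ∈ s ∨ bs u := by
          rcases hu with hu | hu
          · rcases Finset.mem_insert.1 hu with rfl | h
            · exact Or.inr hba
            · exact Or.inl h
          · exact Or.inr hu
        exact h3 u v huv hu' hv' hbv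
      · let bad : Set W := ⋃ u : V, ⋃ e ∈ {e ∈ P | ψ u ∈ e}, (e : Set W)
        have hbad : bad.Finite := by
          refine Set.finite_iUnion (fun u => ?_)
          exact (hP (ψ u)).biUnion (fun e _ => e.finite_toSet)
        obtain ⟨N, hN⟩ : ∃ N, x a N ∉ bad := by
          by_contra hcon
          push Not at hcon
          have : (Set.univ : Set ℕ).Finite := by
            have h4 : (x a ⁻¹' bad).Finite := hbad.preimage (hx a).injOn
            apply h4.subset
            intro N _
            exact hcon N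
          exact Set.infinite_univ this
        have hfar : ∀ u e, e ∈ P → ψ u ∈ e → x a N ∈ e → False := by
          intro u e he hue hae
          apply hN
          simp only [bad, Set.mem_iUnion, Set.mem_setOf_eq]
          exact ⟨u, e, ⟨he, hue⟩, hae⟩
        refine ⟨Function.update ψ a (x a N), ?_, ?_, ?_⟩
        · intro v hv
          rw [Function.update_of_ne (by rintro rfl; exact hba hv)]
          exact h1 v hv
        · intro v hv
          by_cases hva : v = a
          · subst hva; exact ⟨N, by simp⟩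
          · rw [Function.update_of_ne hva]; exact h2 v hv
        · intro u v huv hu hv hbv e he hue hve
          by_cases hva : v = a
          · subst hva
            rw [Function.update_of_ne huv] at hue
            rw [Function.update_self] at hve
            exact hfar u e he hue hve
          · rw [Function.update_of_ne hva] at hve
            have hv' : v ∈ s := by
              rcases Finset.mem_insert.1 hv with h | h
              · exact absurd h hva
              · exact h
            by_cases hua : u = a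
            · subst hua
              rw [Function.update_self] at hue
              exact hfar v e he hve hue
            · rw [Function.update_of_ne hua] at hue
              have hu' : u ∈ s ∨ bs u := by
                rcases hu with hu | hu
                · rcases Finset.mem_insert.1 hu with h | h
                  · exact absurd h hua
                  · exact Or.inl h
                · exact Or.inr hu
              exact h3 u v huv hu' hv' hbv e he hue hve
  obtain ⟨ψ, h1, h2, h3⟩ := key univ
  exact ⟨ψ, h1, h2, fun u v huv hbv => h3 u v huv (Or.inl (mem_univ _)) (mem_univ _) hbv⟩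

section Sat

variable {k : ℕ} {V : Type} [Fintype V] [DecidableEq V] {H : Finset V → Prop}

theorem exists_ordering {W : Type} [DecidableEq W] (e : Finset W) (he : e.card = k) :
    ∃ t : Fin k → W, Function.Injective t ∧ univ.image t = e := by
  subst he
  refine ⟨fun i => (e.equivFin.symm i : W), ?_, ?_⟩
  · intro i j h
    exact e.equivFin.symm.injective (Subtype.ext h)
  · ext w
    simp only [mem_image, mem_univ, true_and]
    constructor
    · rintro ⟨i, rfl⟩
      exact (e.equivFin.symm i).2
    · intro hw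
      exact ⟨e.equivFin ⟨w, hw⟩, by simp⟩

theorem perturb (gad : ∀ α : Bool, Gad k H α) (hk : 2 ≤ k) (P : Set (Finset (ℕ × ℕ)))
    (hPk : ∀ e ∈ P, e.card = k) (hne : P.Nonempty) (hP : ∀ w, {e ∈ P | w ∈ e}.Finite) :
    ∃ φ : V → ℕ × ℕ, Function.Injective φ ∧
      ∀ S : Finset V, S.card = k → (H S ↔ S.image φ ∈ symmDiff (GG gad) P) := by
  classical
  obtain ⟨e, he⟩ := hne
  obtain ⟨t, htinj, hte⟩ := exists_ordering e (hPk e he)
  obtain ⟨m, hm1, hmt⟩ := tup_surj k t htinj
  set α := A gad m with hα
  set g := gad α with hg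
  have hmx : ∀ i, (tup k m i).1 < m := (tup_spec k m hm1).2
  -- index functions
  have hdec : ∀ v : V, (∀ i, v ≠ g.f i) → ∀ n, ∃ j, dec g j = (v, n) := fun v hv n =>
    dec_surj g (v, n) hv
  have hx0 : ∀ v : V, ∃ x : ℕ → ℕ × ℕ, Function.Injective x ∧
      ((∀ i, v ≠ g.f i) → ∀ n, (x n).1 = m ∧ dec g (x n).2 = (v, n)) := by
    intro v
    by_cases hv : ∀ i, v ≠ g.f i
    · choose j hj using hdec v hv
      refine ⟨fun n => (m, j n), ?_, fun _ n => ⟨rfl, hj n⟩⟩
      intro a b hab
      simp only [Prod.mk.injEq, true_and] at hab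
      have := hj a
      rw [hab, hj b] at this
      simpa using this.symm
    · refine ⟨fun n => (n, n), ?_, fun h => absurd h hv⟩
      intro a b hab
      simpa using hab
  choose x hxinj hx using hx0
  let bs : V → Prop := fun v => ∃ i, v = g.f i
  let b : V → ℕ × ℕ := fun v => if h : ∃ i, v = g.f i then t h.choose else (0, 0)
  have hb : ∀ i, b (g.f i) = t i := by
    intro i
    have h : ∃ j, g.f i = g.f j := ⟨i, rfl⟩
    simp only [b]
    rw [dif_pos h]
    congr 1
    exact (g.finj h.choose_spec).symm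
  obtain ⟨ψ, hψ1, hψ2, hψ3⟩ := exists_far P hP bs b x hxinj
  have hψf : ∀ i, ψ (g.f i) = t i := fun i => by rw [hψ1 _ ⟨i, rfl⟩, hb]
  have hnb : ∀ v, ¬ bs v → ∀ i, v ≠ g.f i := fun v hv i h => hv ⟨i, h⟩
  -- indices
  have hn : ∃ n : V → ℕ, (∀ i, n (g.f i) = 0) ∧ ∀ v, ¬ bs v → ψ v = x v (n v) := by
    refine ⟨fun v => if h : bs v then 0 else (hψ2 v h).choose, ?_, ?_⟩
    · intro i
      have : bs (g.f i) := ⟨i, rfl⟩
      simp [this]
    · intro v hv
      simp only [hv, dite_false]
      exact (hψ2 v hv).choose_spec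
  obtain ⟨n, hn0, hn⟩ := hn
  have hrole : ∀ v, role g m (ψ v) = some (v, n v) := by
    intro v
    by_cases hv : bs v
    · obtain ⟨i, rfl⟩ := hv
      rw [hψf, hn0, ← hmt, role_tup g m hm1]
    · have h1 := hx v (hnb v hv) (n v)
      rw [hn v hv, role_new' g m _ h1.1, h1.2]
  have hstage : ∀ v, ¬ bs v → (ψ v).1 = m := by
    intro v hv
    rw [hn v hv]
    exact (hx v (hnb v hv) (n v)).1
  have hstage' : ∀ v, (ψ v).1 ≤ m := by
    intro v
    by_cases hv : bs v
    · obtain ⟨i, rfl⟩ := hv
      rw [hψf, ← hmt]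
      exact (hmx i).le
    · exact (hstage v hv).le
  have hψinj : Function.Injective ψ := by
    intro u v huv
    have h1 := hrole u
    rw [huv, hrole v] at h1
    simpa using (congrArg Prod.fst (Option.some.inj h1)).symm
  refine ⟨ψ, hψinj, ?_⟩
  intro S hS
  by_cases hSF : S = univ.image g.f
  · have h1 : S.image ψ = e := by
      rw [hSF, Finset.image_image, ← hte]
      congr 1
      funext i
      exact hψf i
    rw [h1, hSF, g.flip, Set.mem_symmDiff]
    have h2 : A gad m = true ↔ e ∈ GG gad := by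
      rw [A_iff gad m hm1, hmt, hte]
    constructor
    · intro h
      right
      refine ⟨he, fun h3 => ?_⟩
      have h4 := h2.2 h3
      rw [← hα, h] at h4
      exact absurd h4 (by simp)
    · rintro (⟨_, h⟩ | ⟨_, h⟩)
      · exact absurd he h
      · have h5 : ¬ A gad m = true := fun h3 => h (h2.1 h3)
        rw [← hα] at h5
        simpa using h5
  · -- S contains a non-base vertex
    have h0 : ∃ v ∈ S, ¬ bs v := by
      by_contra hcon
      push Not at hcon
      apply hSF
      apply Finset.eq_of_subset_of_card_le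
      · intro v hv
        obtain ⟨i, hi⟩ := hcon v hv
        exact mem_image.2 ⟨i, mem_univ _, hi.symm⟩
      · rw [Finset.card_image_of_injective _ g.finj, hS]; simp
    obtain ⟨v, hvS, hv⟩ := h0
    have hnP : S.image ψ ∉ P := by
      intro hSP
      obtain ⟨u, huS, huv⟩ := Finset.exists_mem_ne (by omega : 1 < S.card) v
      exact hψ3 u v huv hv _ hSP (mem_image_of_mem _ huS) (mem_image_of_mem _ hvS)
    have h1 : S.image ψ ∈ symmDiff (GG gad) P ↔ S.image ψ ∈ GG gad := by
      rw [Set.mem_symmDiff]
      constructor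
      · rintro (⟨h, _⟩ | ⟨h, _⟩)
        · exact h
        · exact absurd h hnP
      · intro h; exact Or.inl ⟨h, hnP⟩
    rw [h1, mem_GG gad (by rw [Finset.card_image_of_injective _ hψinj, hS]) m hm1
      (by intro w hw; simp only [mem_image] at hw; obtain ⟨u, _, rfl⟩ := hw; exact hstage' u)
      ⟨ψ v, mem_image_of_mem _ hvS, hstage v hv⟩]
    have h2 : eraseNone ((S.image ψ).image (role g m)) = S.image (fun v => (v, n v)) := by
      ext p
      simp only [mem_eraseNone, mem_image, exists_exists_and_eq_and]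
      constructor
      · rintro ⟨u, hu, h⟩
        rw [hrole u] at h
        exact ⟨u, hu, by simpa using h⟩
      · rintro ⟨u, hu, rfl⟩
        exact ⟨u, hu, hrole u⟩
    rw [← g.trans S n hS hSF hn0, ← h2]
    unfold Val
    constructor
    · intro h
      right
      refine ⟨?_, h⟩
      intro w hw
      simp only [mem_image] at hw
      obtain ⟨u, _, rfl⟩ := hw
      rw [← hg, hrole u]
      simp
    · rintro (⟨⟨w, hw, hw2⟩, _⟩ | ⟨_, h⟩)
      · exfalso
        simp only [mem_image] at hw
        obtain ⟨u, _, rfl⟩ := hw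
        rw [← hg, hrole u] at hw2
        simp at hw2
      · exact h

/-- **Construction theorem.** -/
theorem exists_saturated (gad : ∀ α : Bool, Gad k H α) (hk : 2 ≤ k)
    (hE : ∃ S : Finset V, S.card = k ∧ H S) :
    ∃ G : Set (Finset (ℕ × ℕ)), (∀ S ∈ G, S.card = k) ∧
      (∀ φ : V → ℕ × ℕ, Function.Injective φ →
        ¬ ∀ S : Finset V, S.card = k → (H S ↔ S.image φ ∈ G)) ∧
      ∀ P : Set (Finset (ℕ × ℕ)), (∀ e ∈ P, e.card = k) → P.Nonempty →
        (∀ w, {e ∈ P | w ∈ e}.Finite) → ∃ φ : V → ℕ × ℕ, Function.Injective φ ∧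
          ∀ S : Finset V, S.card = k → (H S ↔ S.image φ ∈ symmDiff G P) := by
  refine ⟨GG gad, fun S hS => hS.1, ?_, ?_⟩
  · intro φ hφ hc
    exact no_copy gad (by omega) hE φ hφ hc
  · intro P h1 h2 h3
    exact perturb gad hk P h1 h2 h3

end Sat

end Pool.Agent.H13.Sat
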