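import Pool.Agent.H13.Sat.GadO

set_option autoImplicit false
set_option linter.all false

namespace Pool.Agent.H13.Sat

open Finset

/-- codes of the edges : `034, 134, 234`, and `123` if `p`, `124` if `q`. -/
def mask (p q : Bool) (m : ℕ) : Bool :=
  m == 25 || m == 26 || m == 28 || (p && m == 14) || (q && m == 22)

def isF (t : ℕ) : Bool := t == 0 || t == 3 || t == 4

/-- class function of the gadget (edge `034` removed) -/
def b5 (p q : Bool) (x y z : ℕ) : Bool :=
  ((x != y && (x != z && y != z)) && (mask p q (2 ^ x + 2 ^ y + 2 ^ z) &&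
    (2 ^ x + 2 ^ y + 2 ^ z) != 25)) ||
  (!(p && q) && ((x == y && (z == 3 || z == 4)) || (y == z && (x == 3 || x == 4)) ||
    (x == z && (y == 3 || y == 4))))

def c2 (p q : Bool) (s : ℕ) : Bool :=
  if p && q then s == 10 || s == 12 else s == 10 || s == 18 || s == 5 || s == 4 || s == 8

def crossv (p q : Bool) (x y z : ℕ) : Bool :=
  if (if x == 5 then 1 else 0) + (if y == 5 then 1 else 0) + (if z == 5 then 1 else 0) == 2 then
    !(p && q)
  else c2 p q ((if x == 5 then 0 else 2 ^ x) + (if y == 5 then 0 else 2 ^ y) +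
    (if z == 5 then 0 else 2 ^ z))

def bad (x y : ℕ) : Bool := x == y && isF x

def inval (a b c d e : ℕ) : Bool :=
  bad a b || bad a c || bad a d || bad a e || bad b c || bad b d || bad b e || bad c d ||
    bad c e || bad d e

def dB (p q : Bool) (m x y z : ℕ) : Bool := b5 p q x y z != mask p q m

def chkB (p q : Bool) (a b c d e : ℕ) : Bool :=
  inval a b c d e || dB p q 7 a b c || dB p q 11 a b d || dB p q 19 a b e || dB p q 13 a c d ||
    dB p q 21 a c e || dB p q 25 a d e || dB p q 14 b c d || dB p q 22 b c e ||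
    dB p q 26 b d e || dB p q 28 c d e

def is5 (t : ℕ) : Bool := t == 5
def isN (t : ℕ) : Bool := t == 1 || t == 2

def dC (p q : Bool) (m x y z : ℕ) : Bool :=
  if is5 x || is5 y || is5 z then
    (isN x || isN y || isN z) && (crossv p q x y z != mask p q m)
  else b5 p q x y z != mask p q m

def chkC (p q : Bool) (a b c d e : ℕ) : Bool :=
  !(is5 a || is5 b || is5 c || is5 d || is5 e) || !(isN a || isN b || isN c || isN d || isN e) ||
  inval a b c d e || dC p q 7 a b c || dC p q 11 a b d || dC p q 19 a b e || dC p q 13 a c d ||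
    dC p q 21 a c e || dC p q 25 a d e || dC p q 14 b c d || dC p q 22 b c e ||
    dC p q 26 b d e || dC p q 28 c d e

set_option maxRecDepth 100000 in
theorem chkB_all : ∀ p q : Bool, ∀ a b c d e : Fin 5, chkB p q a b c d e = true := by
  decide +kernel

set_option maxRecDepth 100000 in
theorem chkC_all : ∀ p q : Bool, ∀ a b c d e : Fin 6, chkC p q a b c d e = true := by
  decide +kernel


def H5 (p q : Bool) (S : Finset (Fin 5)) : Prop := mask p q (∑ x ∈ S, 2 ^ (x : ℕ)) = true

theorem H5_triple (p q : Bool) {x y z : Fin 5} (hxy : x ≠ y) (hxz : x ≠ z) (hyz : y ≠ z) :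
    H5 p q {x, y, z} ↔ mask p q (2 ^ (x : ℕ) + 2 ^ (y : ℕ) + 2 ^ (z : ℕ)) = true := by
  unfold H5
  rw [Finset.sum_insert (by simp [hxy, hxz]), Finset.sum_insert (by simp [hyz]),
    Finset.sum_singleton, add_assoc]

theorem b5_s1 : ∀ p q : Bool, ∀ x y z : Fin 5, b5 p q x y z = true → b5 p q y x z = true := by
  decide +kernel

theorem b5_s2 : ∀ p q : Bool, ∀ x y z : Fin 5, b5 p q x y z = true → b5 p q x z y = true := by
  decide +kernel

theorem b5_H : ∀ p q : Bool, ∀ x y z : Fin 5, x ≠ y → x ≠ z → y ≠ z →
    2 ^ (x : ℕ) + 2 ^ (y : ℕ) + 2 ^ (z : ℕ) ≠ 25 →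
    b5 p q x y z = mask p q (2 ^ (x : ℕ) + 2 ^ (y : ℕ) + 2 ^ (z : ℕ)) := by
  decide +kernel

theorem sum25 : ∀ x y z : Fin 5, x ≠ y → x ≠ z → y ≠ z →
    2 ^ (x : ℕ) + 2 ^ (y : ℕ) + 2 ^ (z : ℕ) = 25 → ({x, y, z} : Finset (Fin 5)) = {0, 3, 4} := by
  decide +kernel

theorem crossv_s1 (p q : Bool) (x y z : ℕ) : crossv p q x y z = crossv p q y x z := by
  unfold crossv
  rw [add_comm (if (x == 5) = true then 1 else 0) (if (y == 5) = true then 1 else 0),
    add_comm (if (x == 5) = true then 0 else 2 ^ x) (if (y == 5) = true then 0 else 2 ^ y)]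

theorem crossv_s2 (p q : Bool) (x y z : ℕ) : crossv p q x y z = crossv p q x z y := by
  unfold crossv
  rw [add_right_comm (if (x == 5) = true then 1 else 0) (if (y == 5) = true then 1 else 0),
    add_right_comm (if (x == 5) = true then 0 else 2 ^ x) (if (y == 5) = true then 0 else 2 ^ y)]

def crT (p q : Bool) (S : Finset (Fin 5 × ℕ)) : Prop :=
  (∃ s, S = {s} ∧ (!(p && q)) = true) ∨
  (∃ s t : Fin 5 × ℕ, s ≠ t ∧ S = {s, t} ∧ c2 p q (2 ^ (s.1 : ℕ) + 2 ^ (t.1 : ℕ)) = true)

theorem crT_one (p q : Bool) (s : Fin 5 × ℕ) : crT p q {s} ↔ (!(p && q)) = true := by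
  constructor
  · rintro (⟨_, _, h⟩ | ⟨a, b, hab, h, _⟩)
    · exact h
    · exfalso
      have h1 := congrArg Finset.card h
      rw [Finset.card_singleton, Finset.card_pair hab] at h1
      omega
  · intro h; exact Or.inl ⟨s, rfl, h⟩

theorem crT_two (p q : Bool) (s t : Fin 5 × ℕ) (hst : s ≠ t) :
    crT p q {s, t} ↔ c2 p q (2 ^ (s.1 : ℕ) + 2 ^ (t.1 : ℕ)) = true := by
  constructor
  · rintro (⟨a, h, _⟩ | ⟨a, b, hab, h, h2⟩)
    · exfalso
      have h1 := congrArg Finset.card h
      rw [Finset.card_singleton, Finset.card_pair hst] at h1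
      omega
    · have ha : a ∈ ({s, t} : Finset (Fin 5 × ℕ)) := by rw [h]; simp
      have hb : b ∈ ({s, t} : Finset (Fin 5 × ℕ)) := by rw [h]; simp
      simp only [mem_insert, mem_singleton] at ha hb
      rcases ha with rfl | rfl <;> rcases hb with rfl | rfl
      · exact absurd rfl hab
      · exact h2
      · rw [add_comm]; exact h2
      · exact absurd rfl hab
  · intro h; exact Or.inr ⟨s, t, hst, rfl, h⟩

/-- code of the class of a vertex -/
def cd5 (o : Option (Fin 5 × ℕ)) : ℕ :=
  match o with
  | none => 5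
  | some s => (s.1 : ℕ)

theorem cd5_lt (o : Option (Fin 5 × ℕ)) : cd5 o < 6 := by
  cases o with
  | none => simp [cd5]
  | some s => simp only [cd5]; omega

theorem mask_eq_of_iff {a b : Bool} (h : (a = true) ↔ (b = true)) : (b != a) = false := by
  cases a <;> cases b <;> simp_all

theorem or5 (f : Fin 5 → Bool) (v : Fin 5) (h : f v = true) :
    (f 0 || f 1 || f 2 || f 3 || f 4) = true := by
  fin_cases v <;> simp_all

theorem gad5 (p q : Bool) : Nonempty (Gad 3 (H5 p q) false) := by
  refine mkGad (H := H5 p q) (0 : Fin 5) 3 4 (by decide) (by decide) (by decide) ?_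
    ⟨1, by decide, by decide, by decide⟩ (fun x y z => b5 p q x y z = true)
    (fun x y z h => b5_s1 p q x y z h) (fun x y z h => b5_s2 p q x y z h) ?_ ?_ ?_ (crT p q) ?_
  · rw [H5_triple p q (by decide) (by decide) (by decide)]
    cases p <;> cases q <;> decide
  · intro x y z hxy hxz hyz hne
    rw [H5_triple p q hxy hxz hyz, b5_H p q x y z hxy hxz hyz (fun h => hne (sum25 x y z hxy hxz hyz h))]
  · cases p <;> cases q <;> decide
  · -- B-free
    intro ψ hU hψ
    have hbad : ∀ i j : Fin 5, i ≠ j → bad (ψ i) (ψ j) = false := by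
      intro i j hij
      by_contra h
      simp only [bad, isF, Bool.not_eq_false, Bool.and_eq_true, beq_iff_eq, Bool.or_eq_true] at h
      obtain ⟨h1, h2⟩ := h
      apply hij
      apply hU i j (Fin.ext h1)
      rcases h2 with (h2 | h2) | h2
      · exact Or.inl (Fin.ext h2)
      · exact Or.inr (Or.inl (Fin.ext h2))
      · exact Or.inr (Or.inr (Fin.ext h2))
    have hd : ∀ i j k : Fin 5, i ≠ j → i ≠ k → j ≠ k →
        dB p q (2 ^ (i : ℕ) + 2 ^ (j : ℕ) + 2 ^ (k : ℕ)) (ψ i) (ψ j) (ψ k) = false := by
      intro i j k hij hik hjk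
      have h := hψ i j k hij hik hjk
      rw [H5_triple p q hij hik hjk] at h
      exact mask_eq_of_iff h
    have hall := chkB_all p q (ψ 0) (ψ 1) (ψ 2) (ψ 3) (ψ 4)
    have e1 := hd 0 1 2 (by decide) (by decide) (by decide)
    have e2 := hd 0 1 3 (by decide) (by decide) (by decide)
    have e3 := hd 0 1 4 (by decide) (by decide) (by decide)
    have e4 := hd 0 2 3 (by decide) (by decide) (by decide)
    have e5 := hd 0 2 4 (by decide) (by decide) (by decide)
    have e6 := hd 0 3 4 (by decide) (by decide) (by decide)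
    have e7 := hd 1 2 3 (by decide) (by decide) (by decide)
    have e8 := hd 1 2 4 (by decide) (by decide) (by decide)
    have e9 := hd 1 3 4 (by decide) (by decide) (by decide)
    have e10 := hd 2 3 4 (by decide) (by decide) (by decide)
    change dB p q 7 _ _ _ = false at e1
    change dB p q 11 _ _ _ = false at e2
    change dB p q 19 _ _ _ = false at e3
    change dB p q 13 _ _ _ = false at e4
    change dB p q 21 _ _ _ = false at e5
    change dB p q 25 _ _ _ = false at e6
    change dB p q 14 _ _ _ = false at e7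
    change dB p q 22 _ _ _ = false at e8
    change dB p q 26 _ _ _ = false at e9
    change dB p q 28 _ _ _ = false at e10
    have f1 := hbad 0 1 (by decide)
    have f2 := hbad 0 2 (by decide)
    have f3 := hbad 0 3 (by decide)
    have f4 := hbad 0 4 (by decide)
    have f5 := hbad 1 2 (by decide)
    have f6 := hbad 1 3 (by decide)
    have f7 := hbad 1 4 (by decide)
    have f8 := hbad 2 3 (by decide)
    have f9 := hbad 2 4 (by decide)
    have f10 := hbad 3 4 (by decide)
    unfold chkB inval at hall
    rw [e1, e2, e3, e4, e5, e6, e7, e8, e9, e10, f1, f2, f3, f4, f5, f6, f7, f8, f9, f10] at hall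
    exact absurd hall (by decide)
  · -- crossing
    intro κ h1 h2 h3 h4 h5 h6
    let t : Fin 5 → ℕ := fun i => cd5 (κ i)
    have hnone : ∀ i, t i = 5 ↔ κ i = none := by
      intro i
      simp only [t]
      cases h : κ i with
      | none => simp [cd5]
      | some s =>
        simp only [cd5, reduceCtorEq, iff_false]
        have := s.1.isLt
        omega
    have hbad : ∀ i j : Fin 5, i ≠ j → bad (t i) (t j) = false := by
      intro i j hij
      by_contra h
      simp only [bad, isF, Bool.not_eq_false, Bool.and_eq_true, beq_iff_eq, Bool.or_eq_true] at h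
      obtain ⟨g1, g2⟩ := h
      cases hi : κ i with
      | none =>
        have := (hnone i).2 hi
        rw [this] at g2
        simp at g2
      | some s =>
        cases hj : κ j with
        | none =>
          have := (hnone j).2 hj
          rw [g1, this] at g2
          simp at g2
        | some s' =>
          simp only [t, hi, hj, cd5] at g1 g2
          have g3 : s.1 = s'.1 := Fin.ext g1
          have g4 : s.1 = 0 ∨ s.1 = 3 ∨ s.1 = 4 := by
            rcases g2 with (g2 | g2) | g2
            · exact Or.inl (Fin.ext g2)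
            · exact Or.inr (Or.inl (Fin.ext g2))
            · exact Or.inr (Or.inr (Fin.ext g2))
          have g5 := h2 i s hi g4
          have g6 := h2 j s' hj (by rw [← g3]; exact g4)
          apply hij
          apply h1 i j s hi
          rw [hj, Prod.ext g3 (g5.trans g6.symm)]
    have hnew : ∀ i, isN (t i) = true → ∃ s, κ i = some s ∧ s.1 ≠ 0 ∧ s.1 ≠ 3 ∧ s.1 ≠ 4 := by
      intro i hi
      cases h : κ i with
      | none =>
        have := (hnone i).2 h
        rw [this] at hi
        simp [isN] at hi
      | some s =>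
        refine ⟨s, rfl, ?_⟩
        simp only [t, h, cd5, isN, Bool.or_eq_true, beq_iff_eq] at hi
        refine ⟨?_, ?_, ?_⟩ <;> intro h' <;> rw [h'] at hi <;> simp at hi
    have hnew' : ∀ i s, κ i = some s → s.1 ≠ 0 → s.1 ≠ 3 → s.1 ≠ 4 → isN (t i) = true := by
      intro i s hi a1 a2 a3
      simp only [t, hi, cd5, isN, Bool.or_eq_true, beq_iff_eq]
      have b1 : (s.1 : ℕ) ≠ 0 := fun h => a1 (Fin.ext h)
      have b2 : (s.1 : ℕ) ≠ 3 := fun h => a2 (Fin.ext h)
      have b3 : (s.1 : ℕ) ≠ 4 := fun h => a3 (Fin.ext h)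
      have := s.1.isLt
      omega
    -- crossing values, normalised
    have hcr0 : ∀ x y z, x ≠ y → x ≠ z → y ≠ z → κ x = none → isN (t y) = true →
        (H5 p q {x, y, z} ↔ crossv p q (t x) (t y) (t z) = true) := by
      intro x y z hxy hxz hyz hx hy
      obtain ⟨s, hs, a1, a2, a3⟩ := hnew y hy
      rw [h6 x y z hxy hxz hyz hx s hs a1 a2 a3]
      have htx : t x = 5 := (hnone x).2 hx
      have hty : t y = s.1 := by simp only [t, hs, cd5]
      have hs5 : (s.1 : ℕ) < 5 := s.1.isLt
      cases hz : κ z with
      | none =>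
        have htz : t z = 5 := (hnone z).2 hz
        have : eraseNone (({x, y, z} : Finset (Fin 5)).image κ) = {s} := by
          ext w
          simp [mem_eraseNone, hx, hs, hz, eq_comm]
        rw [this, crT_one, crossv, htx, hty, htz]
        have h7 : ((s.1 : ℕ) == 5) = false := by simp; omega
        simp [h7]
      | some s' =>
        have htz : t z = s'.1 := by simp only [t, hz, cd5]
        have hs5' : (s'.1 : ℕ) < 5 := s'.1.isLt
        have hss : s ≠ s' := by
          rintro rfl
          exact hyz (h1 y z s hs hz)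
        have : eraseNone (({x, y, z} : Finset (Fin 5)).image κ) = {s, s'} := by
          ext w
          simp [mem_eraseNone, hx, hs, hz, eq_comm]
        rw [this, crT_two p q s s' hss, crossv, htx, hty, htz]
        have h7 : ((s.1 : ℕ) == 5) = false := by simp; omega
        have h8 : ((s'.1 : ℕ) == 5) = false := by simp; omega
        simp [h7, h8]
    have hcr1 : ∀ x y z, x ≠ y → x ≠ z → y ≠ z → κ x = none →
        (isN (t y) = true ∨ isN (t z) = true) →
        (H5 p q {x, y, z} ↔ crossv p q (t x) (t y) (t z) = true) := by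
      intro x y z hxy hxz hyz hx h
      rcases h with h | h
      · exact hcr0 x y z hxy hxz hyz hx h
      · rw [perm2, crossv_s2]
        exact hcr0 x z y hxz hxy hyz.symm hx h
    have hNnot : ∀ i, κ i = none → ¬ isN (t i) = true := by
      intro i hi h
      rw [(hnone i).2 hi] at h
      simp [isN] at h
    have hcr : ∀ x y z, x ≠ y → x ≠ z → y ≠ z → (κ x = none ∨ κ y = none ∨ κ z = none) →
        (isN (t x) = true ∨ isN (t y) = true ∨ isN (t z) = true) →
        (H5 p q {x, y, z} ↔ crossv p q (t x) (t y) (t z) = true) := by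
      intro x y z hxy hxz hyz h hN
      rcases h with h | h | h
      · refine hcr1 x y z hxy hxz hyz h ?_
        rcases hN with hN | hN
        · exact absurd hN (hNnot x h)
        · exact hN
      · rw [perm1, crossv_s1]
        refine hcr1 y x z hxy.symm hyz hxz h ?_
        rcases hN with hN | hN | hN
        · exact Or.inl hN
        · exact absurd hN (hNnot y h)
        · exact Or.inr hN
      · rw [perm2, perm1, crossv_s2, crossv_s1]
        refine hcr1 z x y hxz.symm hyz.symm hxy h ?_
        rcases hN with hN | hN | hN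
        · exact Or.inl hN
        · exact Or.inr hN
        · exact absurd hN (hNnot z h)
    have hd : ∀ i j k : Fin 5, i ≠ j → i ≠ k → j ≠ k →
        dC p q (2 ^ (i : ℕ) + 2 ^ (j : ℕ) + 2 ^ (k : ℕ)) (t i) (t j) (t k) = false := by
      intro i j k hij hik hjk
      unfold dC
      split_ifs with h
      · simp only [is5, Bool.or_eq_true, beq_iff_eq, hnone] at h
        by_cases hN : (isN (t i) || isN (t j) || isN (t k)) = true
        · have h7 : κ i = none ∨ κ j = none ∨ κ k = none := by tauto
          have h8 : isN (t i) = true ∨ isN (t j) = true ∨ isN (t k) = true := by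
            simp only [Bool.or_eq_true] at hN; tauto
          have h9 := hcr i j k hij hik hjk h7 h8
          rw [H5_triple p q hij hik hjk] at h9
          rw [mask_eq_of_iff h9, Bool.and_false]
        · rw [Bool.not_eq_true] at hN
          rw [hN, Bool.false_and]
      · simp only [is5, Bool.or_eq_true, beq_iff_eq, hnone, not_or] at h
        obtain ⟨⟨g1, g2⟩, g3⟩ := h
        obtain ⟨s1, e1⟩ := Option.ne_none_iff_exists'.1 g1
        obtain ⟨s2, e2⟩ := Option.ne_none_iff_exists'.1 g2
        obtain ⟨s3, e3⟩ := Option.ne_none_iff_exists'.1 g3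
        have h9 := h5 i j k hij hik hjk s1 s2 s3 e1 e2 e3
        rw [H5_triple p q hij hik hjk] at h9
        simp only [t, e1, e2, e3, cd5]
        exact mask_eq_of_iff h9
    have hall := chkC_all p q ⟨t 0, cd5_lt _⟩ ⟨t 1, cd5_lt _⟩ ⟨t 2, cd5_lt _⟩ ⟨t 3, cd5_lt _⟩
      ⟨t 4, cd5_lt _⟩
    simp only at hall
    have e1 := hd 0 1 2 (by decide) (by decide) (by decide)
    have e2 := hd 0 1 3 (by decide) (by decide) (by decide)
    have e3 := hd 0 1 4 (by decide) (by decide) (by decide)
    have e4 := hd 0 2 3 (by decide) (by decide) (by decide)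
    have e5 := hd 0 2 4 (by decide) (by decide) (by decide)
    have e6 := hd 0 3 4 (by decide) (by decide) (by decide)
    have e7 := hd 1 2 3 (by decide) (by decide) (by decide)
    have e8 := hd 1 2 4 (by decide) (by decide) (by decide)
    have e9 := hd 1 3 4 (by decide) (by decide) (by decide)
    have e10 := hd 2 3 4 (by decide) (by decide) (by decide)
    change dC p q 7 _ _ _ = false at e1
    change dC p q 11 _ _ _ = false at e2
    change dC p q 19 _ _ _ = false at e3
    change dC p q 13 _ _ _ = false at e4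
    change dC p q 21 _ _ _ = false at e5
    change dC p q 25 _ _ _ = false at e6
    change dC p q 14 _ _ _ = false at e7
    change dC p q 22 _ _ _ = false at e8
    change dC p q 26 _ _ _ = false at e9
    change dC p q 28 _ _ _ = false at e10
    have f1 := hbad 0 1 (by decide)
    have f2 := hbad 0 2 (by decide)
    have f3 := hbad 0 3 (by decide)
    have f4 := hbad 0 4 (by decide)
    have f5 := hbad 1 2 (by decide)
    have f6 := hbad 1 3 (by decide)
    have f7 := hbad 1 4 (by decide)
    have f8 := hbad 2 3 (by decide)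
    have f9 := hbad 2 4 (by decide)
    have f10 := hbad 3 4 (by decide)
    have g1 : (is5 (t 0) || is5 (t 1) || is5 (t 2) || is5 (t 3) || is5 (t 4)) = true := by
      obtain ⟨v, hv⟩ := h3
      have hv' : is5 (t v) = true := by
        rw [(hnone v).2 hv]; rfl
      exact or5 (fun v => is5 (t v)) v hv'
    have g2 : (isN (t 0) || isN (t 1) || isN (t 2) || isN (t 3) || isN (t 4)) = true := by
      obtain ⟨v, s, hv, a1, a2, a3⟩ := h4
      have hv' : isN (t v) = true := hnew' v s hv a1 a2 a3
      exact or5 (fun v => isN (t v)) v hv'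
    unfold chkC inval at hall
    rw [e1, e2, e3, e4, e5, e6, e7, e8, e9, e10, f1, f2, f3, f4, f5, f6, f7, f8, f9, f10,
      g1, g2] at hall
    exact absurd hall (by decide)

end Pool.Agent.H13.Sat
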