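import Pool.Agent.H13.Sat.Cases

set_option autoImplicit false
set_option linter.all false

namespace Pool.Agent.H13.Sat

open Finset

section

variable {V : Type} [Fintype V] [DecidableEq V] {H : Finset V → Prop}

theorem exists_rest (hcard : 5 ≤ Fintype.card V) (p q r : V) :
    ∃ v, v ≠ p ∧ v ≠ q ∧ v ≠ r := by
  by_contra hcon
  push Not at hcon
  have : (univ : Finset V) ⊆ {p, q, r} := by
    intro z _
    simp only [mem_insert, mem_singleton]
    by_contra h; push Not at h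
    exact h.2.2 (hcon z h.1 h.2.1)
  have h1 := Finset.card_le_card this
  rw [Finset.card_univ] at h1
  have h2 : ({p, q, r} : Finset V).card ≤ 3 := Finset.card_le_three
  omega

theorem gadO (hcard : 5 ≤ Fintype.card V) (c d : V) (hcd : c ≠ d)
    (hO : ∀ z, z ≠ c → z ≠ d → H {c, d, z}) (hD : ¬ Danger H c d ∨ 6 ≤ Fintype.card V) :
    Nonempty (Gad 3 H false) := by
  have hthird : ∃ z, z ≠ c ∧ z ≠ d := by
    obtain ⟨v, h1, h2, _⟩ := exists_rest hcard c d c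
    exact ⟨v, h1, h2⟩
  -- crossing for any class function
  have hcrossall : ∀ (p q r : V) (b : V → V → V → Prop), p ≠ q → p ≠ r → q ≠ r →
      (∀ x y z, b x y z → b y x z) → (∀ x y z, b x y z → b x z y) → ¬ b p q r →
      ∃ cr : Finset (V × ℕ) → Prop, ∀ κ : V → Option (V × ℕ),
      (∀ v w p, κ v = some p → κ w = some p → v = w) →
      (∀ v s, κ v = some s → (s.1 = p ∨ s.1 = q ∨ s.1 = r) → s.2 = 0) → (∃ v, κ v = none) →
      (∃ v s, κ v = some s ∧ s.1 ≠ p ∧ s.1 ≠ q ∧ s.1 ≠ r) →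
      (∀ x y z, x ≠ y → x ≠ z → y ≠ z → ∀ s1 s2 s3, κ x = some s1 → κ y = some s2 →
        κ z = some s3 → (H {x, y, z} ↔ b s1.1 s2.1 s3.1)) →
      (∀ x y z, x ≠ y → x ≠ z → y ≠ z → κ x = none → ∀ s, κ y = some s → s.1 ≠ p → s.1 ≠ q →
        s.1 ≠ r → (H {x, y, z} ↔ cr (eraseNone (({x, y, z} : Finset V).image κ)))) → False := by
    intro p q r b hpq hpr hqr hs1 hs2 hbF
    by_cases hD' : Danger H c d
    · have h6 : 6 ≤ Fintype.card V := by
        rcases hD with h | h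
        · exact absurd hD' h
        · exact h
      refine ⟨fun _ => True, ?_⟩
      intro κ a1 a2 a3 a4 a5 a6
      exact cross2 c d hD' h6 p q r κ a1 a2 a3 a4 a6
    · refine ⟨fun _ => False, ?_⟩
      intro κ a1 a2 a3 a4 a5 a6
      exact cross1 c d hcd hO hthird hD' p q r b hs1 hs2 hbF hpq hpr hqr κ a1 a2 a3 a4 a5 a6
  by_cases hs : ∃ y0, y0 ≠ c ∧ y0 ≠ d ∧ ∀ v, T H v = T H y0 → v = y0
  · obtain ⟨y0, hyc, hyd, hy0⟩ := hs
    have hbF : ¬ b1 H {c, d, y0} c d y0 := fun h => h.2 rfl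
    obtain ⟨cr, hcr⟩ := hcrossall c d y0 (b1 H {c, d, y0}) hcd hyc.symm hyd.symm
      (fun x y z h => T'_s1 h) (fun x y z h => T'_s2 h) hbF
    refine mkGad c d y0 hcd hyc.symm hyd.symm (hO y0 hyc hyd) (exists_rest hcard c d y0)
      (b1 H {c, d, y0}) (fun x y z h => T'_s1 h) (fun x y z h => T'_s2 h) ?_ hbF ?_ cr hcr
    · intro x y z hxy hxz hyz hne
      exact ⟨fun h => h.1.2.2.2, fun h => ⟨⟨hxy, hxz, hyz, h⟩, hne⟩⟩
    · intro ψ _ hψ
      exact bf1 c d y0 ⟨hcd, hyc.symm, hyd.symm, hO y0 hyc hyd⟩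
        (full_single c d hcd hO hthird)
        (full_single d c hcd.symm (full_symm hO) (by obtain ⟨z, a, b⟩ := hthird; exact ⟨z, b, a⟩))
        hy0 ψ hψ
  · push Not at hs
    obtain ⟨y0, hyc, hyd⟩ := hthird
    have hbF : ¬ b2 H {c, d, y0} c d c d y0 := by
      rintro (h | ⟨h, _⟩ | ⟨h, _⟩ | ⟨h, _⟩)
      · exact h.2 rfl
      · exact hcd h
      · exact hyd h.symm
      · exact hyc h.symm
    obtain ⟨cr, hcr⟩ := hcrossall c d y0 (b2 H {c, d, y0} c d) hcd hyc.symm hyd.symm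
      (fun x y z h => b2_s1 h) (fun x y z h => b2_s2 h) hbF
    refine mkGad c d y0 hcd hyc.symm hyd.symm (hO y0 hyc hyd) (exists_rest hcard c d y0)
      (b2 H {c, d, y0} c d) (fun x y z h => b2_s1 h) (fun x y z h => b2_s2 h) ?_ hbF ?_ cr hcr
    · intro x y z hxy hxz hyz hne
      constructor
      · rintro (h | ⟨h, _⟩ | ⟨h, _⟩ | ⟨h, _⟩)
        · exact h.1.2.2.2
        · exact absurd h hxy
        · exact absurd h hyz
        · exact absurd h hxz
      · intro h; exact Or.inl ⟨⟨hxy, hxz, hyz, h⟩, hne⟩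
    · intro ψ hU hψ
      refine bf2 c d y0 hcd hyc hyd hO ?_ hcard ψ hU hψ
      intro y hy1 hy2
      obtain ⟨v, hv1, hv2⟩ := hs y hy1 hy2
      exact ⟨v, hv2, hv1⟩

/-- reducible hypergraphs have a codegree zero pair -/
theorem zero_pair (h : ¬ ∀ u v : V, u ≠ v → ∃ S : Finset V, S.card = 3 ∧ u ∈ S ∧ v ∈ S ∧ H S) :
    ∃ a b, a ≠ b ∧ ∀ z, z ≠ a → z ≠ b → ¬ H {a, b, z} := by
  push Not at h
  obtain ⟨a, b, hab, h⟩ := h
  refine ⟨a, b, hab, fun z hz1 hz2 => ?_⟩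
  exact h _ (Finset.card_eq_three.2 ⟨a, b, z, hab, hz1.symm, hz2.symm, rfl⟩) (by simp) (by simp)

end

end Pool.Agent.H13.Sat
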