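import Pool.Agent.H13.Sat.Core

set_option autoImplicit false
set_option linter.all false

namespace Pool.Agent.H13.Sat

open Finset

variable {k : ℕ} {V : Type} [Fintype V] [DecidableEq V] {H : Finset V → Prop}

/-- gadgets pass to complements -/
def Gad.compl {α : Bool} (g : Gad k (fun S => ¬ H S) (!α)) : Gad k H α where
  f := g.f
  finj := g.finj
  rest := g.rest
  st := fun S => ¬ g.st S
  cr := fun S => ¬ g.cr S
  flip := by
    have := g.flip
    cases α <;> simp_all
  base := by
    have := g.base
    cases α <;> simp_all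
  trans := by
    intro S n h1 h2 h3
    rw [g.trans S n h1 h2 h3, not_not]
  bfree := by
    intro κ h1 h2 h3
    refine g.bfree κ h1 h2 ?_
    intro S hS
    rw [h3 S hS, not_not]
  cross := by
    intro κ h1 h2 h3 h4 h5 h6
    refine g.cross κ h1 h2 h3 h4 ?_ ?_
    · intro S hS h
      rw [h5 S hS h, not_not]
    · intro S hS h h'
      rw [h6 S hS h h', not_not]

theorem iter_contra (σ : V → V) (hσ : Function.Injective σ) (Q Q' : Finset V → Prop)
    (h1 : ∀ S : Finset V, S.card = k → Q S → Q' (S.image σ)) (h2 : ∀ S, Q' S → Q S)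
    (F : Finset V) (hF : F.card = k) (hQ : Q F) : Q' F := by
  let I : Finset V → Finset V := fun S => S.image σ
  have hI : Function.Injective I := Finset.image_injective hσ
  have h3 : F ∈ Function.periodicPts I := hI.mem_periodicPts F
  obtain ⟨n, hn, hp⟩ := h3
  have h4 : ∀ n : ℕ, (I^[n] F).card = k ∧ Q (I^[n] F) := by
    intro n
    induction n with
    | zero => exact ⟨hF, hQ⟩
    | succ n ih =>
      rw [Function.iterate_succ_apply']
      exact ⟨by rw [Finset.card_image_of_injective _ hσ]; exact ih.1, h2 _ (h1 _ ih.1 ih.2)⟩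
  obtain ⟨n', rfl⟩ : ∃ n', n = n' + 1 := ⟨n - 1, by omega⟩
  have h5 : I^[n' + 1] F = F := hp
  rw [← h5, Function.iterate_succ_apply']
  exact h1 _ (h4 n').1 (h4 n').2

/-- the gadget for irreducible hypergraphs -/
theorem gad_irred (hirr : ∀ u v : V, u ≠ v → ∃ S : Finset V, S.card = k ∧ u ∈ S ∧ v ∈ S ∧ H S)
    (α : Bool) (F : Finset V) (hF : F.card = k) (hHF : H F ↔ α = false) (hrest : ∃ v, v ∉ F) :
    Nonempty (Gad k H α) := by
  classical
  obtain ⟨f, finj, hfF⟩ := exists_ordering F hF
  set base : Finset (V × ℕ) := univ.image (fun i => (f i, 0)) with hbase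
  have hmemF : ∀ v, v ∈ F ↔ ∃ i, f i = v := by
    intro v; rw [← hfF]; simp
  have hbfst : base.image Prod.fst = F := by
    rw [hbase, Finset.image_image, ← hfF]; rfl
  have hbmem : ∀ p, p ∈ base ↔ p.1 ∈ F ∧ p.2 = 0 := by
    intro p
    rw [hbase]
    simp only [mem_image, mem_univ, true_and, hmemF]
    constructor
    · rintro ⟨i, rfl⟩; exact ⟨⟨i, rfl⟩, rfl⟩
    · rintro ⟨⟨i, hi⟩, h0⟩; exact ⟨i, Prod.ext hi h0.symm⟩
  have hbcard : base.card = k := by
    rw [hbase, Finset.card_image_of_injective]
    · simp
    · intro i j h; simp only [Prod.mk.injEq, and_true] at h; exact finj h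
  refine ⟨{ f := f
            finj := finj
            rest := ?_
            st := fun T => (T = base ∧ α = true) ∨
              (T ≠ base ∧ Set.InjOn Prod.fst (T : Set (V × ℕ)) ∧ H (T.image Prod.fst))
            cr := fun _ => False
            flip := by rw [hfF]; exact hHF
            base := ?_
            trans := ?_
            bfree := ?_
            cross := ?_ }⟩
  · obtain ⟨v, hv⟩ := hrest
    exact ⟨v, fun i h => hv ((hmemF v).2 ⟨i, h⟩)⟩
  · constructor
    · rintro (⟨_, h⟩ | ⟨h, _⟩)
      · exact h
      · exact absurd rfl h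
    · intro h; exact Or.inl ⟨rfl, h⟩
  · intro S n hS hne hn0
    have h1 : (S.image (fun v => (v, n v))).image Prod.fst = S := by
      rw [Finset.image_image]; simp [Function.comp_def]
    have h2 : S.image (fun v => (v, n v)) ≠ base := by
      intro h
      rw [h, hbfst] at h1
      exact hne (h1.symm.trans hfF.symm)
    constructor
    · rintro (⟨h, _⟩ | ⟨_, _, h⟩)
      · exact absurd h h2
      · rwa [h1] at h
    · intro h
      refine Or.inr ⟨h2, ?_, by rwa [h1]⟩
      intro p hp q hq hpq
      simp only [coe_image, Set.mem_image, mem_coe] at hp hq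
      obtain ⟨u, _, rfl⟩ := hp
      obtain ⟨v, _, rfl⟩ := hq
      simp only at hpq
      rw [hpq]
  · intro κ hκ hU hc
    have hψ : Function.Injective (fun v => (κ v).1) := by
      intro u v huv
      by_contra hne
      obtain ⟨S, hS, hu, hv, hHS⟩ := hirr u v hne
      rcases (hc S hS).1 hHS with ⟨h, _⟩ | ⟨_, h, _⟩
      · have h1 : κ u ∈ base := by rw [← h]; exact mem_image_of_mem _ hu
        have h2 : κ v ∈ base := by rw [← h]; exact mem_image_of_mem _ hv
        rw [hbmem] at h1 h2
        exact hne (hκ (Prod.ext huv (h1.2.trans h2.2.symm)))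
      · apply hne
        apply hκ
        exact h (mem_coe.2 (mem_image_of_mem _ hu)) (mem_coe.2 (mem_image_of_mem _ hv)) huv
    have himg : ∀ S : Finset V, (S.image κ).image Prod.fst = S.image (fun v => (κ v).1) := by
      intro S; rw [Finset.image_image]; rfl
    have hF2 : ∀ S : Finset V, S.card = k → S.image (fun v => (κ v).1) = F → S.image κ = base := by
      intro S hS h
      apply Finset.eq_of_subset_of_card_le
      · intro p hp
        rw [hbmem]
        simp only [mem_image] at hp
        obtain ⟨v, hv, rfl⟩ := hp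
        have h1 : (κ v).1 ∈ F := by rw [← h]; exact mem_image_of_mem (fun v => (κ v).1) hv
        refine ⟨h1, ?_⟩
        obtain ⟨i, hi⟩ := (hmemF _).1 h1
        exact hU v i hi.symm
      · rw [hbcard, Finset.card_image_of_injective _ hκ, hS]
    cases α with
    | false =>
      have h3 := iter_contra (k := k) (fun v => (κ v).1) hψ H (fun S => H S ∧ S ≠ F)
        (by
          intro S hS hHS
          rcases (hc S hS).1 hHS with ⟨_, h⟩ | ⟨hb, _, h⟩
          · exact absurd h (by simp)
          · rw [himg] at h
            exact ⟨h, fun h' => hb (hF2 S hS h')⟩)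
        (fun S h => h.1) F hF (hHF.2 rfl)
      exact h3.2 rfl
    | true =>
      have h3 := iter_contra (k := k) (fun v => (κ v).1) hψ (fun S => ¬ H S)
        (fun S => ¬ H S ∧ S ≠ F)
        (by
          intro S hS hHS
          have h4 : ¬ _ := fun h => hHS ((hc S hS).2 h)
          push Not at h4
          have hb : S.image κ ≠ base := fun h => absurd (h4.1 h) (by simp)
          refine ⟨?_, fun h' => hb (hF2 S hS h')⟩
          have := h4.2 hb
          rw [himg] at this
          apply this
          intro p hp q hq hpq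
          simp only [coe_image, Set.mem_image, mem_coe] at hp hq
          obtain ⟨u, _, rfl⟩ := hp
          obtain ⟨v, _, rfl⟩ := hq
          rw [hψ hpq])
        (fun S h => h.1) F hF (by
          intro h
          exact absurd (hHF.1 h) (by simp))
      exact h3.2 rfl
  · intro κ _ _ h3 h4 _ h6
    obtain ⟨v, hv⟩ := h3
    obtain ⟨w, p, hw, hp⟩ := h4
    have hvw : v ≠ w := by
      rintro rfl
      rw [hv] at hw
      exact absurd hw (by simp)
    obtain ⟨S, hS, hvS, hwS, hHS⟩ := hirr v w hvw
    exact (h6 S hS ⟨v, hvS, hv⟩ ⟨w, hwS, p, hw, hp⟩).1 hHS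

end Pool.Agent.H13.Sat
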