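import Pool.Agent.H13.Sat.Assemble

set_option autoImplicit false
set_option linter.all false

namespace Pool.Agent.H13.Sat

open Finset

theorem good_H5 (p q : Bool) : GoodW 3 ℕ (H5 p q) := by
  have hval : ∀ z : Fin 5, z ≠ 0 → z ≠ 1 → ¬ H5 p q {0, 1, z} := by
    intro z h0 h1
    rw [H5_triple p q (by decide) (Ne.symm h0) (Ne.symm h1)]
    fin_cases z
    · exact absurd rfl h0
    · exact absurd rfl h1
    · cases p <;> cases q <;> decide
    · cases p <;> cases q <;> decide
    · cases p <;> cases q <;> decide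
  have h02 : ∀ z : Fin 5, z ≠ 0 → z ≠ 2 → ¬ H5 p q {0, 2, z} := by
    intro z h0 h1
    rw [H5_triple p q (by decide) (Ne.symm h0) (Ne.symm h1)]
    fin_cases z
    · exact absurd rfl h0
    · cases p <;> cases q <;> decide
    · exact absurd rfl h1
    · cases p <;> cases q <;> decide
    · cases p <;> cases q <;> decide
  have hD : ¬ Danger (fun S => ¬ H5 p q S) (0 : Fin 5) 1 := by
    rintro ⟨P, ⟨x, hx0, hx1, hx⟩, ⟨y, hy0, hy1, hy⟩, h⟩
    have hxy : x ≠ y := by rintro rfl; exact hy hx
    by_cases h2 : P 2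
    · have hy2 : y ≠ 2 := by rintro rfl; exact hy h2
      apply h 2 y (by decide) (by decide) hy0 hy1 h2 hy 0 (by decide) (Ne.symm hy0)
      rw [perm2, perm1]
      exact h02 y hy0 hy2
    · have hx2 : x ≠ 2 := by rintro rfl; exact h2 hx
      apply h x 2 hx0 hx1 (by decide) (by decide) hx h2 0 (Ne.symm hx0) (by decide)
      rw [perm3]
      exact h02 x hx0 hx2
  obtain ⟨g⟩ := gadO (V := Fin 5) (H := fun S => ¬ H5 p q S) (by simp) 0 1 (by decide) hval
    (Or.inl hD)
  refine good_of_gad (by norm_num) ⟨{0, 3, 4}, by decide, ?_⟩ (gad5 p q)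
    ⟨Gad.compl (α := true) g⟩
  rw [H5_triple p q (by decide) (by decide) (by decide)]
  cases p <;> cases q <;> decide

theorem five_cases : ∀ S : Finset (Fin 5), S.card = 3 →
    S = {0, 1, 2} ∨ S = {0, 1, 3} ∨ S = {0, 1, 4} ∨ S = {0, 2, 3} ∨ S = {0, 2, 4} ∨
    S = {0, 3, 4} ∨ S = {1, 2, 3} ∨ S = {1, 2, 4} ∨ S = {1, 3, 4} ∨ S = {2, 3, 4} := by
  decide +kernel

section

variable {V : Type} [Fintype V] [DecidableEq V] {H : Finset V → Prop}

theorem exc_core (hcard : Fintype.card V = 5) (a b b' c d : V) (nab : a ≠ b) (nab' : a ≠ b')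
    (nac : a ≠ c) (nad : a ≠ d) (nbb' : b ≠ b') (nbc : b ≠ c) (nbd : b ≠ d) (nb'c : b' ≠ c)
    (nb'd : b' ≠ d) (ncd : c ≠ d) (z1 : ∀ z, z ≠ a → z ≠ b → ¬ H {a, b, z})
    (z2 : ∀ z, z ≠ a → z ≠ b' → ¬ H {a, b', z}) (hO : ∀ z, z ≠ c → z ≠ d → H {c, d, z}) :
    GoodW 3 ℕ H := by
  classical
  let f : Fin 5 → V := ![a, b, b', c, d]
  have hinj : Function.Injective f := by
    intro i j hij
    fin_cases i <;> fin_cases j <;>
      first
      | rfl
      | exact absurd hij nab
      | exact absurd hij.symm nab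
      | exact absurd hij nab'
      | exact absurd hij.symm nab'
      | exact absurd hij nac
      | exact absurd hij.symm nac
      | exact absurd hij nad
      | exact absurd hij.symm nad
      | exact absurd hij nbb'
      | exact absurd hij.symm nbb'
      | exact absurd hij nbc
      | exact absurd hij.symm nbc
      | exact absurd hij nbd
      | exact absurd hij.symm nbd
      | exact absurd hij nb'c
      | exact absurd hij.symm nb'c
      | exact absurd hij nb'd
      | exact absurd hij.symm nb'd
      | exact absurd hij ncd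
      | exact absurd hij.symm ncd
  have hbij : Function.Bijective f := (Fintype.bijective_iff_injective_and_card f).2
    ⟨hinj, by simp [hcard]⟩
  let e : Fin 5 ≃ V := Equiv.ofBijective f hbij
  apply goodW_transport e (H' := H5 (decide (H {b, b', c})) (decide (H {b, b', d})))
  swap
  · exact good_H5 _ _
  intro S hS
  have hef : S.image e = S.image f := rfl
  rw [hef]
  set p := decide (H {b, b', c}) with hp
  set q := decide (H {b, b', d}) with hq
  rcases five_cases S hS with rfl | rfl | rfl | rfl | rfl | rfl | rfl | rfl | rfl | rfl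
  · have e1 : ({0, 1, 2} : Finset (Fin 5)).image f = {a, b, b'} := by
      simp [Finset.image_insert, f]
    rw [e1, H5_triple p q (by decide) (by decide) (by decide)]
    exact iff_of_false (by cases p <;> cases q <;> decide) (z1 b' nab'.symm nbb'.symm)
  · have e1 : ({0, 1, 3} : Finset (Fin 5)).image f = {a, b, c} := by
      simp [Finset.image_insert, f]
    rw [e1, H5_triple p q (by decide) (by decide) (by decide)]
    exact iff_of_false (by cases p <;> cases q <;> decide) (z1 c nac.symm nbc.symm)
  · have e1 : ({0, 1, 4} : Finset (Fin 5)).image f = {a, b, d} := by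
      simp [Finset.image_insert, f]
    rw [e1, H5_triple p q (by decide) (by decide) (by decide)]
    exact iff_of_false (by cases p <;> cases q <;> decide) (z1 d nad.symm nbd.symm)
  · have e1 : ({0, 2, 3} : Finset (Fin 5)).image f = {a, b', c} := by
      simp [Finset.image_insert, f]
    rw [e1, H5_triple p q (by decide) (by decide) (by decide)]
    exact iff_of_false (by cases p <;> cases q <;> decide) (z2 c nac.symm nb'c.symm)
  · have e1 : ({0, 2, 4} : Finset (Fin 5)).image f = {a, b', d} := by
      simp [Finset.image_insert, f]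
    rw [e1, H5_triple p q (by decide) (by decide) (by decide)]
    exact iff_of_false (by cases p <;> cases q <;> decide) (z2 d nad.symm nb'd.symm)
  · have e1 : ({0, 3, 4} : Finset (Fin 5)).image f = {a, c, d} := by
      simp [Finset.image_insert, f]
    rw [e1, H5_triple p q (by decide) (by decide) (by decide)]
    refine iff_of_true (by cases p <;> cases q <;> decide) ?_
    rw [perm1, perm2]; exact hO a nac nad
  · have e1 : ({1, 2, 3} : Finset (Fin 5)).image f = {b, b', c} := by
      simp [Finset.image_insert, f]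
    rw [e1, H5_triple p q (by decide) (by decide) (by decide)]
    have : (mask p q (2 ^ ((1 : Fin 5) : ℕ) + 2 ^ ((2 : Fin 5) : ℕ) + 2 ^ ((3 : Fin 5) : ℕ))) = p := by
      cases p <;> cases q <;> decide
    rw [this, hp, decide_eq_true_iff]
  · have e1 : ({1, 2, 4} : Finset (Fin 5)).image f = {b, b', d} := by
      simp [Finset.image_insert, f]
    rw [e1, H5_triple p q (by decide) (by decide) (by decide)]
    have : (mask p q (2 ^ ((1 : Fin 5) : ℕ) + 2 ^ ((2 : Fin 5) : ℕ) + 2 ^ ((4 : Fin 5) : ℕ))) = q := by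
      cases p <;> cases q <;> decide
    rw [this, hq, decide_eq_true_iff]
  · have e1 : ({1, 3, 4} : Finset (Fin 5)).image f = {b, c, d} := by
      simp [Finset.image_insert, f]
    rw [e1, H5_triple p q (by decide) (by decide) (by decide)]
    refine iff_of_true (by cases p <;> cases q <;> decide) ?_
    rw [perm1, perm2]; exact hO b nbc nbd
  · have e1 : ({2, 3, 4} : Finset (Fin 5)).image f = {b', c, d} := by
      simp [Finset.image_insert, f]
    rw [e1, H5_triple p q (by decide) (by decide) (by decide)]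
    refine iff_of_true (by cases p <;> cases q <;> decide) ?_
    rw [perm1, perm2]; exact hO b' nb'c nb'd

theorem exc (hcard : Fintype.card V = 5) (c d : V) (hcd : c ≠ d)
    (hO : ∀ z, z ≠ c → z ≠ d → H {c, d, z}) (hD : Danger H c d) : GoodW 3 ℕ H := by
  obtain ⟨P, ⟨x, hx1, hx2, hx⟩, ⟨y, hy1, hy2, hy⟩, h⟩ := hD
  have hxy : x ≠ y := by rintro rfl; exact hy hx
  obtain ⟨t, ht⟩ : ∃ t, t ∉ ({c, d, x, y} : Finset V) := by
    by_contra hcon
    push Not at hcon
    have h1 : (univ : Finset V) ⊆ {c, d, x, y} := fun v _ => hcon v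
    have h2 := Finset.card_le_card h1
    rw [Finset.card_univ, hcard] at h2
    have h3 : ({c, d, x, y} : Finset V).card ≤ 4 := Finset.card_le_four
    omega
  simp only [mem_insert, mem_singleton, not_or] at ht
  obtain ⟨ht1, ht2, ht3, ht4⟩ := ht
  have hyx : ∀ z, z ≠ y → z ≠ x → ¬ H {y, x, z} := by
    intro z h1 h2 hH
    exact h x y hx1 hx2 hy1 hy2 hx hy z h2 h1 (by rw [perm1]; exact hH)
  by_cases hPt : P t
  · refine exc_core hcard y x t c d hxy.symm (Ne.symm ht4) hy1 hy2 (Ne.symm ht3) hx1 hx2 ht1 ht2 hcd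
      hyx ?_ hO
    intro z h1 h2 hH
    exact h t y ht1 ht2 hy1 hy2 hPt hy z h2 h1 (by rw [perm1]; exact hH)
  · refine exc_core hcard x y t c d hxy (Ne.symm ht3) hx1 hx2 (Ne.symm ht4) hy1 hy2 ht1 ht2 hcd
      (h x y hx1 hx2 hy1 hy2 hx hy) (h x t hx1 hx2 ht1 ht2 hx hPt) hO

theorem four_core (hcard : Fintype.card V = 4) (a b c d : V) (nab : a ≠ b) (nac : a ≠ c)
    (nad : a ≠ d) (nbc : b ≠ c) (nbd : b ≠ d) (ncd : c ≠ d)
    (z1 : ∀ z, z ≠ a → z ≠ b → ¬ H {a, b, z}) (hO : ∀ z, z ≠ c → z ≠ d → H {c, d, z}) :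
    GoodW 3 ℕ H := by
  classical
  let f : Fin 4 → V := ![a, b, c, d]
  have hinj : Function.Injective f := by
    intro i j hij
    fin_cases i <;> fin_cases j <;>
      first
      | rfl
      | exact absurd hij nab
      | exact absurd hij.symm nab
      | exact absurd hij nac
      | exact absurd hij.symm nac
      | exact absurd hij nad
      | exact absurd hij.symm nad
      | exact absurd hij nbc
      | exact absurd hij.symm nbc
      | exact absurd hij nbd
      | exact absurd hij.symm nbd
      | exact absurd hij ncd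
      | exact absurd hij.symm ncd
  have hbij : Function.Bijective f := (Fintype.bijective_iff_injective_and_card f).2
    ⟨hinj, by simp [hcard]⟩
  let e : Fin 4 ≃ V := Equiv.ofBijective f hbij
  have hg : GoodW 3 ℕ H4 := by
    obtain ⟨e'⟩ : Nonempty (ℚ × Bool ≃ ℕ) := by
      haveI : Infinite (ℚ × Bool) := Prod.infinite_of_left
      haveI := Classical.choice (nonempty_denumerable (ℚ × Bool))
      exact ⟨Denumerable.eqv (ℚ × Bool)⟩
    exact goodW_congr e' good_H4
  apply goodW_transport e (H' := H4)
  swap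
  · exact hg
  intro S hS
  have hef : S.image e = S.image f := rfl
  rw [hef]
  rcases four_cases S hS with rfl | rfl | rfl | rfl
  · have e1 : ({0, 1, 2} : Finset (Fin 4)).image f = {a, b, c} := by
      simp [Finset.image_insert, f]
    rw [e1]
    exact iff_of_false (by decide +kernel) (z1 c nac.symm nbc.symm)
  · have e1 : ({0, 1, 3} : Finset (Fin 4)).image f = {a, b, d} := by
      simp [Finset.image_insert, f]
    rw [e1]
    exact iff_of_false (by decide +kernel) (z1 d nad.symm nbd.symm)
  · have e1 : ({0, 2, 3} : Finset (Fin 4)).image f = {a, c, d} := by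
      simp [Finset.image_insert, f]
    rw [e1]
    refine iff_of_true (by decide +kernel) ?_
    rw [perm1, perm2]; exact hO a nac nad
  · have e1 : ({1, 2, 3} : Finset (Fin 4)).image f = {b, c, d} := by
      simp [Finset.image_insert, f]
    rw [e1]
    refine iff_of_true (by decide +kernel) ?_
    rw [perm1, perm2]; exact hO b nbc nbd

theorem good_three (hE : ∃ S : Finset V, S.card = 3 ∧ H S) (hN : ∃ S : Finset V, S.card = 3 ∧ ¬ H S) :
    GoodW 3 ℕ H := by
  by_cases h1 : ∀ u v : V, u ≠ v → ∃ S : Finset V, S.card = 3 ∧ u ∈ S ∧ v ∈ S ∧ H S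
  · exact good_irred (by norm_num) hE hN h1
  by_cases h2 : ∀ u v : V, u ≠ v → ∃ S : Finset V, S.card = 3 ∧ u ∈ S ∧ v ∈ S ∧ ¬ H S
  · exact good_irred' (by norm_num) hE hN h2
  obtain ⟨a, b, nab, hz⟩ := zero_pair h1
  obtain ⟨c, d, ncd, hO'⟩ := zero_pair (H := fun S => ¬ H S) h2
  have hO : ∀ z, z ≠ c → z ≠ d → H {c, d, z} := fun z h3 h4 => not_not.1 (hO' z h3 h4)
  -- a fourth vertex
  have hcard4 : 4 ≤ Fintype.card V := by
    obtain ⟨S, hS, hS2⟩ := hE
    obtain ⟨v, hv⟩ := exists_out ⟨S, hS, hS2⟩ hN S hS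
    have h3 : (insert v S).card = 4 := by rw [Finset.card_insert_of_notMem hv, hS]
    rw [← h3]
    exact Finset.card_le_univ _
  have hthird : ∀ a b : V, ∃ z : V, z ≠ a ∧ z ≠ b := by
    intro a b
    by_contra hcon
    push Not at hcon
    have : (univ : Finset V) ⊆ {a, b} := by
      intro z _
      simp only [mem_insert, mem_singleton]
      by_contra h; push Not at h
      exact h.2 (hcon z h.1)
    have := Finset.card_le_card this
    rw [Finset.card_univ] at this
    have := Finset.card_le_two (a := a) (b := b)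
    omega
  -- the pairs are disjoint
  have hdisj : ∀ a b c d : V, a ≠ b → c ≠ d → (∀ z, z ≠ a → z ≠ b → ¬ H {a, b, z}) →
      (∀ z, z ≠ c → z ≠ d → H {c, d, z}) → a ≠ c := by
    intro a b c d nab ncd hz hO hac
    subst hac
    by_cases hbd : b = d
    · subst hbd
      obtain ⟨z, h3, h4⟩ := hthird a b
      exact hz z h3 h4 (hO z h3 h4)
    · apply hz d ncd.symm (Ne.symm hbd)
      rw [perm2]
      exact hO b nab.symm hbd
  have hz' : ∀ z, z ≠ b → z ≠ a → ¬ H {b, a, z} := by
    intro z h3 h4 h5
    exact hz z h4 h3 (by rw [perm1]; exact h5)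
  have nac := hdisj a b c d nab ncd hz hO
  have nad := hdisj a b d c nab ncd.symm hz (full_symm hO)
  have nbc := hdisj b a c d nab.symm ncd hz' hO
  have nbd := hdisj b a d c nab.symm ncd.symm hz' (full_symm hO)
  rcases hcard4.eq_or_lt with h4 | h5
  · exact four_core h4.symm a b c d nab nac nad nbc nbd ncd hz hO
  · have h5' : 5 ≤ Fintype.card V := h5
    by_cases hD1 : Fintype.card V = 5 ∧ Danger H c d
    · exact exc hD1.1 c d ncd hO hD1.2
    · by_cases hD2 : Fintype.card V = 5 ∧ Danger (fun S => ¬ H S) a b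
      · exact goodW_compl (exc hD2.1 a b nab hz hD2.2)
      · have q1 : ¬ Danger H c d ∨ 6 ≤ Fintype.card V := by
          by_cases h : Danger H c d
          · right
            have : Fintype.card V ≠ 5 := fun h' => hD1 ⟨h', h⟩
            omega
          · exact Or.inl h
        have q2 : ¬ Danger (fun S => ¬ H S) a b ∨ 6 ≤ Fintype.card V := by
          by_cases h : Danger (fun S => ¬ H S) a b
          · right
            have : Fintype.card V ≠ 5 := fun h' => hD2 ⟨h', h⟩
            omega
          · exact Or.inl h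
        obtain ⟨g⟩ := gadO (H := fun S => ¬ H S) h5' a b nab hz q2
        exact good_of_gad (by norm_num) hE (gadO h5' c d ncd hO q1) ⟨Gad.compl (α := true) g⟩

theorem good_all {k : ℕ} (hk : 3 ≤ k) (hE : ∃ S : Finset V, S.card = k ∧ H S)
    (hN : ∃ S : Finset V, S.card = k ∧ ¬ H S) : GoodW k ℕ H := by
  rcases hk.eq_or_lt with h | h
  · subst h
    exact good_three hE hN
  · exact good_four h hE hN

end

end Pool.Agent.H13.Sat
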