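import Pool.Agent.H13.Sat.Gadgets

set_option autoImplicit false
set_option linter.all false

namespace Pool.Agent.H13.Sat

open Finset

section Ternary

variable {V : Type} [DecidableEq V]

theorem perm1 (x y z : V) : ({x, y, z} : Finset V) = {y, x, z} := by
  ext a; simp only [mem_insert, mem_singleton]; tauto

theorem perm2 (x y z : V) : ({x, y, z} : Finset V) = {x, z, y} := by
  ext a; simp only [mem_insert, mem_singleton]; tauto

theorem perm3 (x y z : V) : ({x, y, z} : Finset V) = {z, y, x} := by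
  ext a; simp only [mem_insert, mem_singleton]; tauto

theorem eq_triple {x y z p q r : V} (h : ({x, y, z} : Finset V) = {p, q, r}) (hx : x ≠ y)
    (hz : x ≠ z) (hyz : y ≠ z) :
    (x = p ∧ y = q ∧ z = r) ∨ (x = p ∧ y = r ∧ z = q) ∨ (x = q ∧ y = p ∧ z = r) ∨
    (x = q ∧ y = r ∧ z = p) ∨ (x = r ∧ y = p ∧ z = q) ∨ (x = r ∧ y = q ∧ z = p) := by
  have h1 : x ∈ ({p, q, r} : Finset V) := by rw [← h]; simp
  have h2 : y ∈ ({p, q, r} : Finset V) := by rw [← h]; simp
  have h3 : z ∈ ({p, q, r} : Finset V) := by rw [← h]; simp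
  simp only [mem_insert, mem_singleton] at h1 h2 h3
  rcases h1 with rfl | rfl | rfl <;> rcases h2 with rfl | rfl | rfl <;>
    rcases h3 with rfl | rfl | rfl <;> simp_all

end Ternary

section Builder

variable {V : Type} [Fintype V] [DecidableEq V] {H : Finset V → Prop}

/-- status function on points from a status function on classes -/
def stOf (b : V → V → V → Prop) (S : Finset (V × ℕ)) : Prop :=
  ∃ x y z : V × ℕ, x ≠ y ∧ x ≠ z ∧ y ≠ z ∧ S = {x, y, z} ∧ b x.1 y.1 z.1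

theorem stOf_iff (b : V → V → V → Prop) (hs1 : ∀ x y z, b x y z → b y x z)
    (hs2 : ∀ x y z, b x y z → b x z y) (x y z : V × ℕ) (h1 : x ≠ y) (h2 : x ≠ z) (h3 : y ≠ z) :
    stOf b {x, y, z} ↔ b x.1 y.1 z.1 := by
  constructor
  · rintro ⟨x', y', z', g1, g2, g3, g4, g5⟩
    rcases eq_triple g4.symm g1 g2 g3 with ⟨rfl, rfl, rfl⟩ | ⟨rfl, rfl, rfl⟩ | ⟨rfl, rfl, rfl⟩ |
      ⟨rfl, rfl, rfl⟩ | ⟨rfl, rfl, rfl⟩ | ⟨rfl, rfl, rfl⟩
    · exact g5
    · exact hs2 _ _ _ g5
    · exact hs1 _ _ _ g5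
    · exact hs1 _ _ _ (hs2 _ _ _ g5)
    · exact hs2 _ _ _ (hs1 _ _ _ g5)
    · exact hs1 _ _ _ (hs2 _ _ _ (hs1 _ _ _ g5))
  · intro h
    exact ⟨x, y, z, h1, h2, h3, rfl, h⟩

theorem mkGad (p q r : V) (hpq : p ≠ q) (hpr : p ≠ r) (hqr : q ≠ r) (hF : H {p, q, r})
    (hrest : ∃ v, v ≠ p ∧ v ≠ q ∧ v ≠ r) (b : V → V → V → Prop)
    (hs1 : ∀ x y z, b x y z → b y x z) (hs2 : ∀ x y z, b x y z → b x z y)
    (hb : ∀ x y z, x ≠ y → x ≠ z → y ≠ z → ({x, y, z} : Finset V) ≠ {p, q, r} →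
      (b x y z ↔ H {x, y, z}))
    (hbF : ¬ b p q r)
    (Bf : ∀ ψ : V → V, (∀ u v, ψ u = ψ v → (ψ u = p ∨ ψ u = q ∨ ψ u = r) → u = v) →
      (∀ x y z, x ≠ y → x ≠ z → y ≠ z → (H {x, y, z} ↔ b (ψ x) (ψ y) (ψ z))) → False)
    (cr : Finset (V × ℕ) → Prop)
    (hcross : ∀ κ : V → Option (V × ℕ), (∀ v w p, κ v = some p → κ w = some p → v = w) →
      (∀ v s, κ v = some s → (s.1 = p ∨ s.1 = q ∨ s.1 = r) → s.2 = 0) → (∃ v, κ v = none) →
      (∃ v s, κ v = some s ∧ s.1 ≠ p ∧ s.1 ≠ q ∧ s.1 ≠ r) →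
      (∀ x y z, x ≠ y → x ≠ z → y ≠ z → ∀ s1 s2 s3, κ x = some s1 → κ y = some s2 →
        κ z = some s3 → (H {x, y, z} ↔ b s1.1 s2.1 s3.1)) →
      (∀ x y z, x ≠ y → x ≠ z → y ≠ z → κ x = none → ∀ s, κ y = some s → s.1 ≠ p → s.1 ≠ q →
        s.1 ≠ r → (H {x, y, z} ↔ cr (eraseNone (({x, y, z} : Finset V).image κ)))) → False) :
    Nonempty (Gad 3 H false) := by
  classical
  have hf : univ.image (![p, q, r] : Fin 3 → V) = {p, q, r} := by
    ext a
    simp only [mem_image, mem_univ, true_and, Fin.exists_fin_succ, mem_insert, mem_singleton]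
    simp [eq_comm]
  have hfex : ∀ a, (∃ i, a = (![p, q, r] : Fin 3 → V) i) ↔ (a = p ∨ a = q ∨ a = r) := by
    intro a
    simp only [Fin.exists_fin_succ]
    simp
  have hfall : ∀ a, (∀ i, a ≠ (![p, q, r] : Fin 3 → V) i) ↔ (a ≠ p ∧ a ≠ q ∧ a ≠ r) := by
    intro a
    simp only [Fin.forall_fin_succ]
    simp
  refine ⟨{ f := ![p, q, r]
            finj := ?_
            rest := ?_
            st := stOf b
            cr := cr
            flip := ?_
            base := ?_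
            trans := ?_
            bfree := ?_
            cross := ?_ }⟩
  · intro i j hij
    fin_cases i <;> fin_cases j <;>
      first
      | rfl
      | exact absurd hij hpq
      | exact absurd hij.symm hpq
      | exact absurd hij hpr
      | exact absurd hij.symm hpr
      | exact absurd hij hqr
      | exact absurd hij.symm hqr
  · obtain ⟨v, hv⟩ := hrest
    exact ⟨v, fun i h => (hfall v).2 hv i h.symm⟩
  · rw [hf]; simp [hF]
  · have h1 : univ.image (fun i => ((![p, q, r] : Fin 3 → V) i, (0 : ℕ))) =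
        {(p, 0), (q, 0), (r, 0)} := by
      ext a
      simp only [mem_image, mem_univ, true_and, Fin.exists_fin_succ, mem_insert, mem_singleton]
      simp [eq_comm]
    rw [h1, stOf_iff b hs1 hs2 _ _ _ (by simp [hpq]) (by simp [hpr]) (by simp [hqr])]
    simp [hbF]
  · intro S n hS hne hn
    obtain ⟨x, y, z, hxy, hxz, hyz, rfl⟩ := Finset.card_eq_three.1 hS
    have h1 : ({x, y, z} : Finset V).image (fun v => (v, n v)) =
        {(x, n x), (y, n y), (z, n z)} := by
      simp [Finset.image_insert]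
    rw [h1, stOf_iff b hs1 hs2 _ _ _ (by simp [hxy]) (by simp [hxz]) (by simp [hyz])]
    rw [hf] at hne
    exact hb x y z hxy hxz hyz hne
  · intro κ hκ hU hc
    refine Bf (fun v => (κ v).1) ?_ ?_
    · intro u v huv hu
      have hu' := (hfex _).2 hu
      have hv' : ∃ i, (κ v).1 = (![p, q, r] : Fin 3 → V) i := by
        obtain ⟨i, hi⟩ := hu'
        exact ⟨i, by rw [← hi]; exact huv.symm⟩
      obtain ⟨i, hi⟩ := hu'
      obtain ⟨j, hj⟩ := hv'
      exact hκ (Prod.ext huv ((hU u i hi).trans (hU v j hj).symm))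
    · intro x y z hxy hxz hyz
      have h1 : ({x, y, z} : Finset V).image κ = {κ x, κ y, κ z} := by
        simp [Finset.image_insert]
      rw [hc {x, y, z} (Finset.card_eq_three.2 ⟨x, y, z, hxy, hxz, hyz, rfl⟩), h1,
        stOf_iff b hs1 hs2 _ _ _ (hκ.ne hxy) (hκ.ne hxz) (hκ.ne hyz)]
  · intro κ h1 h2 h3 h4 h5 h6
    refine hcross κ h1 ?_ h3 ?_ ?_ ?_
    · intro v s hs hs2
      obtain ⟨i, hi⟩ := (hfex _).2 hs2
      exact h2 v s i hs hi
    · obtain ⟨v, s, hs, hs2⟩ := h4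
      exact ⟨v, s, hs, (hfall _).1 hs2⟩
    · intro x y z hxy hxz hyz s1 s2 s3 e1 e2 e3
      have hne : ∀ v ∈ ({x, y, z} : Finset V), κ v ≠ none := by
        intro v hv
        simp only [mem_insert, mem_singleton] at hv
        rcases hv with rfl | rfl | rfl
        · rw [e1]; simp
        · rw [e2]; simp
        · rw [e3]; simp
      rw [h5 {x, y, z} (Finset.card_eq_three.2 ⟨x, y, z, hxy, hxz, hyz, rfl⟩) hne]
      have h7 : eraseNone (({x, y, z} : Finset V).image κ) = {s1, s2, s3} := by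
        ext s
        simp only [mem_eraseNone, mem_image, mem_insert, mem_singleton, exists_eq_or_imp,
          exists_eq_left, e1, e2, e3, Option.some.injEq]
        simp [eq_comm]
      rw [h7, stOf_iff b hs1 hs2]
      · rintro rfl; exact hxy (h1 _ _ _ e1 e2)
      · rintro rfl; exact hxz (h1 _ _ _ e1 e3)
      · rintro rfl; exact hyz (h1 _ _ _ e2 e3)
    · intro x y z hxy hxz hyz hx s hs a1 a2 a3
      exact h6 {x, y, z} (Finset.card_eq_three.2 ⟨x, y, z, hxy, hxz, hyz, rfl⟩)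
        ⟨x, by simp, hx⟩ ⟨y, by simp, s, hs, (hfall _).2 ⟨a1, a2, a3⟩⟩

end Builder

end Pool.Agent.H13.Sat
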